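import Mathlib
import Pool.Agent.Y670.RD.Frm
import Pool.Agent.U964.FM.Arith

/-!
The valuation of a rational function over `ℚ` at the rational numbers near one of its poles, at all
prime numbers.
-/

set_option autoImplicit false

namespace Pool.Agent.U964.LF

open Polynomial Finset
open Pool.Agent.Y670.RD (fv fvq)
open Pool.Agent.U964.FM (clr)

theorem fv_near (n : ℕ) (P : ℤ[X]) (a b s d : ℤ) :
    (b * s - a * d) ∣ b ^ n * fv n P s d - d ^ n * fv n P a b := by
  unfold fv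
  rw [mul_sum, mul_sum, ← sum_sub_distrib]
  refine dvd_sum fun i hi => ?_
  have hi' : i ≤ n := by have := mem_range.mp hi; omega
  have h1 : b ^ n = b ^ (n - i) * b ^ i := by rw [← pow_add]; congr 1; omega
  have h2 : d ^ n = d ^ (n - i) * d ^ i := by rw [← pow_add]; congr 1; omega
  have h3 : b ^ n * (P.coeff i * s ^ i * d ^ (n - i)) - d ^ n * (P.coeff i * a ^ i * b ^ (n - i)) =
      (P.coeff i * b ^ (n - i) * d ^ (n - i)) * ((b * s) ^ i - (a * d) ^ i) := by
    rw [h1, h2, mul_pow, mul_pow]; ring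
  rw [h3]
  exact (sub_dvd_pow_sub_pow _ _ i).mul_left _

theorem val_bound (n : ℕ) (P : ℤ[X]) (a b s d : ℤ) (q : ℕ) [hq : Fact q.Prime]
    (hP : fv n P a b ≠ 0) (hb : b ≠ 0) (hd : d ≠ 0) (hsd : IsCoprime s d) (e : ℕ)
    (he : (q : ℤ) ^ e ∣ b * s - a * d)
    (hbe : n * padicValInt q b + padicValInt q (fv n P a b) + padicValInt q b < e) :
    fv n P s d ≠ 0 ∧
    padicValInt q (fv n P s d) ≤ n * padicValInt q b + padicValInt q (fv n P a b) ∧
    padicValInt q d ≤ padicValInt q b := by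
  have hqp : Prime (q : ℤ) := Nat.prime_iff_prime_int.1 hq.out
  have hvd : padicValInt q d ≤ padicValInt q b := by
    by_contra hcon
    rw [not_le] at hcon
    have h1 : (q : ℤ) ^ (padicValInt q b + 1) ∣ d :=
      (padicValInt_dvd_iff _ _).2 (Or.inr hcon)
    have h2 : (q : ℤ) ^ (padicValInt q b + 1) ∣ b * s - a * d :=
      (pow_dvd_pow _ (by omega)).trans he
    have h3 : (q : ℤ) ^ (padicValInt q b + 1) ∣ b * s := by
      have h4 : b * s = (b * s - a * d) + a * d := by ring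
      rw [h4]
      exact dvd_add h2 (h1.mul_left _)
    have h4 : ¬ (q : ℤ) ∣ s := by
      intro h5
      have h6 : (q : ℤ) ∣ d := (dvd_pow_self _ (Nat.succ_ne_zero _)).trans h1
      exact hqp.not_isUnit (hsd.isUnit_of_dvd' h5 h6)
    have h5 : (q : ℤ) ^ (padicValInt q b + 1) ∣ b := by
      have h6 : IsCoprime ((q : ℤ) ^ (padicValInt q b + 1)) s :=
        IsCoprime.pow_left ((Prime.coprime_iff_not_dvd hqp).2 h4)
      exact h6.dvd_of_dvd_mul_right h3
    rcases (padicValInt_dvd_iff _ _).1 h5 with h6 | h6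
    · exact hb h6
    · omega
  obtain ⟨T, hT⟩ : ∃ T : ℕ, T = n * padicValInt q b + padicValInt q (fv n P a b) := ⟨_, rfl⟩
  have hY0 : d ^ n * fv n P a b ≠ 0 := mul_ne_zero (pow_ne_zero _ hd) hP
  have hpow : padicValInt q (d ^ n) = n * padicValInt q d := by
    unfold padicValInt
    rw [Int.natAbs_pow, padicValNat.pow]
  have hYv : padicValInt q (d ^ n * fv n P a b) ≤ T := by
    rw [padicValInt.mul (pow_ne_zero _ hd) hP, hpow, hT]
    have := Nat.mul_le_mul_left n hvd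
    omega
  have hnot : ¬ (q : ℤ) ^ (T + 1) ∣ b ^ n * fv n P s d := by
    intro h1
    have h2 : (q : ℤ) ^ (T + 1) ∣ b ^ n * fv n P s d - d ^ n * fv n P a b :=
      ((pow_dvd_pow _ (by omega)).trans he).trans (fv_near n P a b s d)
    have h3 : (q : ℤ) ^ (T + 1) ∣ d ^ n * fv n P a b := by
      have h4 : d ^ n * fv n P a b =
          b ^ n * fv n P s d - (b ^ n * fv n P s d - d ^ n * fv n P a b) := by ring
      rw [h4]
      exact dvd_sub h1 h2
    rcases (padicValInt_dvd_iff _ _).1 h3 with h4 | h4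
    · exact hY0 h4
    · omega
  have hne : fv n P s d ≠ 0 := by
    intro h0
    apply hnot
    rw [h0, mul_zero]
    exact dvd_zero _
  refine ⟨hne, ?_, hvd⟩
  rw [← hT]
  by_contra hcon
  rw [not_le] at hcon
  apply hnot
  exact (((padicValInt_dvd_iff _ _).2 (Or.inr hcon))).mul_left _

/-- the linear form of `π` at `x` -/
def ell (π x : ℚ) : ℤ := (π.den : ℤ) * x.num - π.num * (x.den : ℤ)

theorem ell_eq (π x : ℚ) : ((ell π x : ℤ) : ℚ) = (π.den : ℚ) * (x.den : ℚ) * (x - π) := by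
  unfold ell
  push_cast
  have h1 : (x.num : ℚ) = x * x.den := (Rat.mul_den_eq_num x).symm
  have h2 : (π.num : ℚ) = π * π.den := (Rat.mul_den_eq_num π).symm
  rw [h1, h2]
  ring

theorem ell_ne {π x : ℚ} (h : x ≠ π) : ell π x ≠ 0 := by
  intro h0
  have h1 := ell_eq π x
  rw [h0, Int.cast_zero] at h1
  have h2 : (π.den : ℚ) * (x.den : ℚ) ≠ 0 :=
    mul_ne_zero (by exact_mod_cast π.den_nz) (by exact_mod_cast x.den_nz)
  rcases mul_eq_zero.1 h1.symm with h3 | h3
  · exact h2 h3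
  · exact h (sub_eq_zero.1 h3)

theorem fv_ne {P : ℤ[X]} {x : ℚ} (h : aeval x P ≠ 0) : fv P.natDegree P x.num x.den ≠ 0 := by
  intro h0
  have hd : (x.den : ℤ) ≠ 0 := by exact_mod_cast x.den_nz
  have h1 := fvq (le_refl P.natDegree) (s := x.num) hd
  rw [h0] at h1
  have h2 : ((x.num : ℚ) / ((x.den : ℤ) : ℚ)) = x := by
    rw [Int.cast_natCast]; exact Rat.num_div_den x
  rw [h2, Int.cast_zero] at h1
  rcases mul_eq_zero.1 h1.symm with h3 | h3
  · exact (pow_ne_zero _ (by exact_mod_cast x.den_nz)) h3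
  · exact h h3

theorem val_eval (q : ℕ) [hq : Fact q.Prime] (P : ℤ[X]) (x : ℚ)
    (h : fv P.natDegree P x.num x.den ≠ 0) :
    padicValRat q (aeval x P) = padicValInt q (fv P.natDegree P x.num x.den) -
      P.natDegree * padicValNat q x.den := by
  have hd : (x.den : ℤ) ≠ 0 := by exact_mod_cast x.den_nz
  have hdq : (x.den : ℚ) ≠ 0 := by exact_mod_cast x.den_nz
  have h1 := fvq (le_refl P.natDegree) (s := x.num) hd
  have h2 : ((x.num : ℚ) / ((x.den : ℤ) : ℚ)) = x := by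
    rw [Int.cast_natCast]; exact Rat.num_div_den x
  rw [h2, Int.cast_natCast] at h1
  have h3 : aeval x P ≠ 0 := by
    intro h0
    rw [h0, mul_zero] at h1
    exact h (by exact_mod_cast h1)
  have h4 := congrArg (padicValRat q) h1
  rw [padicValRat.mul (pow_ne_zero _ hdq) h3, padicValRat.pow, padicValRat.of_int,
    padicValRat.of_nat] at h4
  linarith

theorem padicValNat_le_of_dvd' {q a b : ℕ} [Fact q.Prime] (hb : b ≠ 0) (h : a ∣ b) :
    padicValNat q a ≤ padicValNat q b := by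
  obtain ⟨c, rfl⟩ := h
  rw [padicValNat.mul (left_ne_zero_of_mul hb) (right_ne_zero_of_mul hb)]
  omega

/-- **The valuation near a rational pole.** -/
theorem loc (F G : ℚ[X]) (hcop : IsCoprime F G) (hG : G ≠ 0) (π : ℚ) (hπ : G.eval π = 0) :
    ∃ m M K : ℕ, 1 ≤ m ∧ 1 ≤ M ∧ ∀ x : ℚ, G.eval x ≠ 0 → ∀ q : ℕ, q.Prime →
      K * padicValNat q M < padicValInt q (ell π x) →
      |padicValRat q (F.eval x / G.eval x) + m * padicValInt q (ell π x)| ≤
        K * padicValNat q M := by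
  obtain ⟨G2, hG2, hnd⟩ := exists_eq_pow_rootMultiplicity_mul_and_not_dvd G hG π
  obtain ⟨m, hm⟩ : ∃ m : ℕ, m = G.rootMultiplicity π := ⟨_, rfl⟩
  rw [← hm] at hG2
  have hm1 : 1 ≤ m := by
    rw [hm]
    exact (rootMultiplicity_pos hG).2 hπ
  have hG2π : G2.eval π ≠ 0 := by
    intro h
    exact hnd (dvd_iff_isRoot.2 h)
  have hFπ : F.eval π ≠ 0 := by
    intro h
    obtain ⟨u, v, huv⟩ := hcop
    have := congrArg (eval π) huv
    rw [eval_add, eval_mul, eval_mul, h, hπ, mul_zero, mul_zero, add_zero, eval_one] at this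
    exact zero_ne_one this
  obtain ⟨c1, F1, hc1, hF1⟩ := clr F
  obtain ⟨c2, G1, hc2, hG1⟩ := clr G2
  have ev : ∀ (c : ℤ) (Q : ℚ[X]) (P : ℤ[X]), P.map (Int.castRingHom ℚ) = C (c : ℚ) * Q →
      ∀ x : ℚ, aeval x P = (c : ℚ) * Q.eval x := by
    intro c Q P h x
    have h1 := congrArg (eval x) h
    rw [eval_mul, eval_C, eval_map] at h1
    rw [← h1, aeval_def]
    rfl
  have evF := ev c1 F F1 hF1
  have evG := ev c2 G2 G1 hG1
  have hc1q : (c1 : ℚ) ≠ 0 := by exact_mod_cast hc1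
  have hc2q : (c2 : ℚ) ≠ 0 := by exact_mod_cast hc2
  have hfF : fv F1.natDegree F1 π.num π.den ≠ 0 :=
    fv_ne (by rw [evF]; exact mul_ne_zero hc1q hFπ)
  have hfG : fv G1.natDegree G1 π.num π.den ≠ 0 :=
    fv_ne (by rw [evG]; exact mul_ne_zero hc2q hG2π)
  obtain ⟨n1, hn1⟩ : ∃ n1 : ℕ, n1 = F1.natDegree := ⟨_, rfl⟩
  obtain ⟨n2, hn2⟩ : ∃ n2 : ℕ, n2 = G1.natDegree := ⟨_, rfl⟩
  rw [← hn1] at hfF
  rw [← hn2] at hfG
  obtain ⟨A, hA⟩ : ∃ A : ℕ, A = (fv n1 F1 π.num π.den).natAbs := ⟨_, rfl⟩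
  obtain ⟨B, hB⟩ : ∃ B : ℕ, B = (fv n2 G1 π.num π.den).natAbs := ⟨_, rfl⟩
  have hA0 : A ≠ 0 := by rw [hA]; exact Int.natAbs_ne_zero.2 hfF
  have hB0 : B ≠ 0 := by rw [hB]; exact Int.natAbs_ne_zero.2 hfG
  have hc10 : c1.natAbs ≠ 0 := Int.natAbs_ne_zero.2 hc1
  have hc20 : c2.natAbs ≠ 0 := Int.natAbs_ne_zero.2 hc2
  have hM0 : c1.natAbs * (c2.natAbs * (A * (B * π.den))) ≠ 0 :=
    mul_ne_zero hc10 (mul_ne_zero hc20 (mul_ne_zero hA0 (mul_ne_zero hB0 π.den_nz)))
  refine ⟨m, c1.natAbs * (c2.natAbs * (A * (B * π.den))), 2 * n1 + 2 * n2 + 2 * m + 4, hm1,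
    Nat.one_le_iff_ne_zero.2 hM0, ?_⟩
  intro x hx q hq hbig
  have : Fact q.Prime := ⟨hq⟩
  obtain ⟨V, hV⟩ : ∃ V : ℕ, V = padicValNat q (c1.natAbs * (c2.natAbs * (A * (B * π.den)))) :=
    ⟨_, rfl⟩
  rw [← hV] at hbig ⊢
  have v1 : padicValInt q c1 ≤ V := by
    rw [hV]; exact padicValNat_le_of_dvd' hM0 (Dvd.intro _ rfl)
  have v2 : padicValInt q c2 ≤ V := by
    rw [hV]
    exact padicValNat_le_of_dvd' hM0 ((Dvd.intro _ rfl : c2.natAbs ∣ _).mul_left _)
  have v3 : padicValInt q (fv n1 F1 π.num π.den) ≤ V := by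
    rw [hV]
    show padicValNat q (fv n1 F1 π.num π.den).natAbs ≤ _
    rw [← hA]
    exact padicValNat_le_of_dvd' hM0 (((Dvd.intro _ rfl : A ∣ _).mul_left _).mul_left _)
  have v4 : padicValInt q (fv n2 G1 π.num π.den) ≤ V := by
    rw [hV]
    show padicValNat q (fv n2 G1 π.num π.den).natAbs ≤ _
    rw [← hB]
    exact padicValNat_le_of_dvd' hM0
      ((((Dvd.intro _ rfl : B ∣ _).mul_left _).mul_left _).mul_left _)
  have v5 : padicValInt q (π.den : ℤ) ≤ V := by
    rw [hV]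
    show padicValNat q ((π.den : ℤ)).natAbs ≤ _
    rw [Int.natAbs_natCast]
    exact padicValNat_le_of_dvd' hM0
      ((((Dvd.intro_left _ rfl : π.den ∣ B * π.den).mul_left _).mul_left _).mul_left _)
  have hxπ : x ≠ π := by
    rintro rfl
    exact hx hπ
  have hell : ell π x ≠ 0 := ell_ne hxπ
  obtain ⟨e, he⟩ : ∃ e : ℕ, e = padicValInt q (ell π x) := ⟨_, rfl⟩
  rw [← he] at hbig ⊢
  have hdvd : (q : ℤ) ^ e ∣ (π.den : ℤ) * x.num - π.num * (x.den : ℤ) :=
    (padicValInt_dvd_iff _ _).2 (Or.inr he.le)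
  have hden : (π.den : ℤ) ≠ 0 := by exact_mod_cast π.den_nz
  have hxd : (x.den : ℤ) ≠ 0 := by exact_mod_cast x.den_nz
  have hcx : IsCoprime x.num (x.den : ℤ) := by
    rw [Int.isCoprime_iff_gcd_eq_one]
    exact x.reduced
  have hK : (2 * n1 + 2 * n2 + 2 * m + 4) * V = 2 * (n1 * V) + 2 * (n2 * V) + 2 * (m * V) + 4 * V := by
    ring
  rw [hK] at hbig
  have m1 : n1 * padicValInt q (π.den : ℤ) ≤ n1 * V := Nat.mul_le_mul_left _ v5
  have m2 : n2 * padicValInt q (π.den : ℤ) ≤ n2 * V := Nat.mul_le_mul_left _ v5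
  obtain ⟨a1, a2, a3⟩ := val_bound n1 F1 π.num π.den x.num x.den q hfF hden hxd hcx e hdvd
    (by omega)
  obtain ⟨b1, b2, -⟩ := val_bound n2 G1 π.num π.den x.num x.den q hfG hden hxd hcx e hdvd
    (by omega)
  have e1 := val_eval q F1 x (by rw [← hn1]; exact a1)
  have e2 := val_eval q G1 x (by rw [← hn2]; exact b1)
  rw [← hn1, evF] at e1
  rw [← hn2, evG] at e2
  have hxF : F.eval x ≠ 0 := by
    intro h0
    apply a1
    have h1 := fvq (N := n1) (f := F1) hn1.ge (s := x.num) hxd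
    have h2 : ((x.num : ℚ) / ((x.den : ℤ) : ℚ)) = x := by
      rw [Int.cast_natCast]; exact Rat.num_div_den x
    rw [h2, evF, h0, mul_zero, mul_zero] at h1
    exact_mod_cast h1
  have hGx : G.eval x = (x - π) ^ m * G2.eval x := by
    conv_lhs => rw [hG2]
    rw [eval_mul, eval_pow, eval_sub, eval_X, eval_C]
  have hxG2 : G2.eval x ≠ 0 := by
    intro h0
    rw [hGx, h0, mul_zero] at hx
    exact hx rfl
  have hxs : x - π ≠ 0 := sub_ne_zero.2 hxπ
  have hdq : (x.den : ℚ) ≠ 0 := by exact_mod_cast x.den_nz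
  have hπdq : (π.den : ℚ) ≠ 0 := by exact_mod_cast π.den_nz
  have e3 : padicValRat q (x - π) = e - padicValNat q π.den - padicValNat q x.den := by
    have h1 := congrArg (padicValRat q) (ell_eq π x)
    rw [padicValRat.of_int, padicValRat.mul (mul_ne_zero hπdq hdq) hxs,
      padicValRat.mul hπdq hdq, padicValRat.of_nat, padicValRat.of_nat, ← he] at h1
    linarith
  rw [padicValRat.mul hc1q hxF, padicValRat.of_int] at e1
  rw [padicValRat.mul hc2q hxG2, padicValRat.of_int] at e2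
  have e4 : padicValRat q (F.eval x / G.eval x) = padicValRat q (F.eval x) -
      (m * padicValRat q (x - π) + padicValRat q (G2.eval x)) := by
    rw [hGx, padicValRat.div hxF (mul_ne_zero (pow_ne_zero _ hxs) hxG2),
      padicValRat.mul (pow_ne_zero _ hxs) hxG2, padicValRat.pow]
  have hd' : padicValInt q (x.den : ℤ) = padicValNat q x.den := by
    show padicValNat q ((x.den : ℤ)).natAbs = _
    rw [Int.natAbs_natCast]
  have hπd' : padicValInt q (π.den : ℤ) = padicValNat q π.den := by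
    show padicValNat q ((π.den : ℤ)).natAbs = _
    rw [Int.natAbs_natCast]
  rw [hd', hπd'] at a3
  rw [hπd'] at a2 b2 m1 m2 v5
  have e5 : padicValRat q (F.eval x / G.eval x) + m * e =
      (padicValInt q (fv n1 F1 x.num x.den) : ℤ) - padicValInt q (fv n2 G1 x.num x.den)
      - padicValInt q c1 + padicValInt q c2 - n1 * padicValNat q x.den
      + n2 * padicValNat q x.den + m * padicValNat q x.den + m * padicValNat q π.den := by
    rw [e4, e3]
    linear_combination e1 - e2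
  rw [e5]
  have k1 : (n1 : ℤ) * padicValNat q x.den ≤ n1 * V := by
    have : padicValNat q x.den ≤ V := a3.trans v5
    gcongr
  have k2 : (n2 : ℤ) * padicValNat q x.den ≤ n2 * V := by
    have : padicValNat q x.den ≤ V := a3.trans v5
    gcongr
  have k3 : (m : ℤ) * padicValNat q x.den ≤ m * V := by
    have : padicValNat q x.den ≤ V := a3.trans v5
    gcongr
  have k4 : (m : ℤ) * padicValNat q π.den ≤ m * V := by gcongr
  have k1' : (0 : ℤ) ≤ (n1 : ℤ) * padicValNat q x.den := by positivity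
  have k2' : (0 : ℤ) ≤ (n2 : ℤ) * padicValNat q x.den := by positivity
  have k3' : (0 : ℤ) ≤ (m : ℤ) * padicValNat q x.den := by positivity
  have k4' : (0 : ℤ) ≤ (m : ℤ) * padicValNat q π.den := by positivity
  have a2' : (padicValInt q (fv n1 F1 x.num x.den) : ℤ) ≤ n1 * V + V := by
    have : padicValInt q (fv n1 F1 x.num x.den) ≤ n1 * V + V := a2.trans (by omega)
    exact_mod_cast this
  have b2' : (padicValInt q (fv n2 G1 x.num x.den) : ℤ) ≤ n2 * V + V := by
    have : padicValInt q (fv n2 G1 x.num x.den) ≤ n2 * V + V := b2.trans (by omega)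
    exact_mod_cast this
  have v1' : (padicValInt q c1 : ℤ) ≤ V := by exact_mod_cast v1
  have v2' : (padicValInt q c2 : ℤ) ≤ V := by exact_mod_cast v2
  have p1 : (0 : ℤ) ≤ padicValInt q (fv n1 F1 x.num x.den) := Nat.cast_nonneg _
  have p2 : (0 : ℤ) ≤ padicValInt q (fv n2 G1 x.num x.den) := Nat.cast_nonneg _
  have p3 : (0 : ℤ) ≤ padicValInt q c1 := Nat.cast_nonneg _
  have p4 : (0 : ℤ) ≤ padicValInt q c2 := Nat.cast_nonneg _
  have hVn : (0 : ℤ) ≤ n1 * V := by positivity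
  have hVn2 : (0 : ℤ) ≤ n2 * V := by positivity
  have hVm : (0 : ℤ) ≤ m * V := by positivity
  have hKz : (((2 * n1 + 2 * n2 + 2 * m + 4 : ℕ) : ℤ)) * V =
      2 * (n1 * V) + 2 * (n2 * V) + 2 * (m * V) + 4 * V := by push_cast; ring
  rw [hKz, abs_le]
  constructor <;> linarith

/-- **The valuation near a pole at infinity.** -/
theorem loc_inf (F G : ℚ[X]) (hG : G ≠ 0) (hdeg : G.natDegree < F.natDegree) :
    ∃ m M K : ℕ, 1 ≤ m ∧ 1 ≤ M ∧ ∀ x : ℚ, G.eval x ≠ 0 → ∀ q : ℕ, q.Prime →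
      K * padicValNat q M < padicValNat q x.den →
      |padicValRat q (F.eval x / G.eval x) + m * padicValNat q x.den| ≤
        K * padicValNat q M := by
  have hF : F ≠ 0 := by
    rintro rfl
    simp at hdeg
  obtain ⟨c1, F1, hc1, hF1⟩ := clr F
  obtain ⟨c2, G1, hc2, hG1⟩ := clr G
  have ev : ∀ (c : ℤ) (Q : ℚ[X]) (P : ℤ[X]), P.map (Int.castRingHom ℚ) = C (c : ℚ) * Q →
      ∀ x : ℚ, aeval x P = (c : ℚ) * Q.eval x := by
    intro c Q P h x
    have h1 := congrArg (eval x) h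
    rw [eval_mul, eval_C, eval_map] at h1
    rw [← h1, aeval_def]
    rfl
  have evF := ev c1 F F1 hF1
  have evG := ev c2 G G1 hG1
  have hc1q : (c1 : ℚ) ≠ 0 := by exact_mod_cast hc1
  have hc2q : (c2 : ℚ) ≠ 0 := by exact_mod_cast hc2
  have hinj : Function.Injective (Int.castRingHom ℚ) := Int.cast_injective
  have d1 : F1.natDegree = F.natDegree := by
    rw [← natDegree_map_eq_of_injective hinj, hF1, natDegree_C_mul hc1q]
  have d2 : G1.natDegree = G.natDegree := by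
    rw [← natDegree_map_eq_of_injective hinj, hG1, natDegree_C_mul hc2q]
  have hF10 : F1 ≠ 0 := by
    rintro rfl
    rw [Polynomial.map_zero] at hF1
    rcases mul_eq_zero.1 hF1.symm with h | h
    · exact hc1q (C_eq_zero.1 h)
    · exact hF h
  have hG10 : G1 ≠ 0 := by
    rintro rfl
    rw [Polynomial.map_zero] at hG1
    rcases mul_eq_zero.1 hG1.symm with h | h
    · exact hc2q (C_eq_zero.1 h)
    · exact hG h
  obtain ⟨n1, hn1⟩ : ∃ n1 : ℕ, n1 = F1.natDegree := ⟨_, rfl⟩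
  obtain ⟨n2, hn2⟩ : ∃ n2 : ℕ, n2 = G1.natDegree := ⟨_, rfl⟩
  have hA0 : F1.leadingCoeff.natAbs ≠ 0 := Int.natAbs_ne_zero.2 (leadingCoeff_ne_zero.2 hF10)
  have hB0 : G1.leadingCoeff.natAbs ≠ 0 := Int.natAbs_ne_zero.2 (leadingCoeff_ne_zero.2 hG10)
  have hc10 : c1.natAbs ≠ 0 := Int.natAbs_ne_zero.2 hc1
  have hc20 : c2.natAbs ≠ 0 := Int.natAbs_ne_zero.2 hc2
  have hM0 : c1.natAbs * (c2.natAbs * (F1.leadingCoeff.natAbs * G1.leadingCoeff.natAbs)) ≠ 0 :=
    mul_ne_zero hc10 (mul_ne_zero hc20 (mul_ne_zero hA0 hB0))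
  refine ⟨n1 - n2, c1.natAbs * (c2.natAbs * (F1.leadingCoeff.natAbs * G1.leadingCoeff.natAbs)), 4,
    by omega, Nat.one_le_iff_ne_zero.2 hM0, ?_⟩
  intro x hx q hq hbig
  have : Fact q.Prime := ⟨hq⟩
  obtain ⟨V, hV⟩ : ∃ V : ℕ, V = padicValNat q
    (c1.natAbs * (c2.natAbs * (F1.leadingCoeff.natAbs * G1.leadingCoeff.natAbs))) := ⟨_, rfl⟩
  rw [← hV] at hbig ⊢
  have v1 : padicValInt q c1 ≤ V := by
    rw [hV]; exact padicValNat_le_of_dvd' hM0 (Dvd.intro _ rfl)
  have v2 : padicValInt q c2 ≤ V := by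
    rw [hV]
    exact padicValNat_le_of_dvd' hM0 ((Dvd.intro _ rfl : c2.natAbs ∣ _).mul_left _)
  have v3 : padicValInt q F1.leadingCoeff ≤ V := by
    rw [hV]
    exact padicValNat_le_of_dvd' hM0
      (((Dvd.intro _ rfl : F1.leadingCoeff.natAbs ∣ _).mul_left _).mul_left _)
  have v4 : padicValInt q G1.leadingCoeff ≤ V := by
    rw [hV]
    exact padicValNat_le_of_dvd' hM0
      (((Dvd.intro_left _ rfl : G1.leadingCoeff.natAbs ∣ _).mul_left _).mul_left _)
  obtain ⟨e, he⟩ : ∃ e : ℕ, e = padicValNat q x.den := ⟨_, rfl⟩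
  rw [← he] at hbig ⊢
  have hxd : (x.den : ℤ) ≠ 0 := by exact_mod_cast x.den_nz
  have hcx : IsCoprime x.num (x.den : ℤ) := by
    rw [Int.isCoprime_iff_gcd_eq_one]
    exact x.reduced
  have hqp : Prime (q : ℤ) := Nat.prime_iff_prime_int.1 hq
  have hdvd : (q : ℤ) ^ e ∣ (x.den : ℤ) := by
    refine (padicValInt_dvd_iff _ _).2 (Or.inr ?_)
    show e ≤ padicValNat q ((x.den : ℤ)).natAbs
    rw [Int.natAbs_natCast, he]
  have hqs : ¬ (q : ℤ) ∣ x.num := by
    intro h5
    have h6 : (q : ℤ) ∣ (x.den : ℤ) := (dvd_pow_self _ (by omega : e ≠ 0)).trans hdvd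
    exact hqp.not_isUnit (hcx.isUnit_of_dvd' h5 h6)
  have key : ∀ P : ℤ[X], P ≠ 0 → padicValInt q P.leadingCoeff ≤ V →
      fv P.natDegree P x.num x.den ≠ 0 ∧ padicValInt q (fv P.natDegree P x.num x.den) ≤ V := by
    intro P hP hv
    have hnot : ¬ (q : ℤ) ^ (V + 1) ∣ fv P.natDegree P x.num x.den := by
      intro h1
      have h2 := Pool.Agent.Y670.RD.fv_mod P.natDegree P x.num x.den
      have h3 : (q : ℤ) ^ (V + 1) ∣ (x.den : ℤ) := (pow_dvd_pow _ (by omega)).trans hdvd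
      have h4 : (q : ℤ) ^ (V + 1) ∣ P.coeff P.natDegree * x.num ^ P.natDegree := by
        have h5 : P.coeff P.natDegree * x.num ^ P.natDegree = fv P.natDegree P x.num x.den -
          (fv P.natDegree P x.num x.den - P.coeff P.natDegree * x.num ^ P.natDegree) := by ring
        rw [h5]
        exact dvd_sub h1 (h3.trans h2)
      have h5 : IsCoprime ((q : ℤ) ^ (V + 1)) (x.num ^ P.natDegree) :=
        IsCoprime.pow ((Prime.coprime_iff_not_dvd hqp).2 hqs)
      have h6 : (q : ℤ) ^ (V + 1) ∣ P.leadingCoeff := h5.dvd_of_dvd_mul_right h4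
      rcases (padicValInt_dvd_iff _ _).1 h6 with h7 | h7
      · exact leadingCoeff_ne_zero.2 hP h7
      · omega
    constructor
    · intro h0
      exact hnot (by rw [h0]; exact dvd_zero _)
    · by_contra hcon
      rw [not_le] at hcon
      exact hnot ((padicValInt_dvd_iff _ _).2 (Or.inr hcon))
  obtain ⟨a1, a2⟩ := key F1 hF10 v3
  obtain ⟨b1, b2⟩ := key G1 hG10 v4
  have e1 := val_eval q F1 x a1
  have e2 := val_eval q G1 x b1
  rw [← hn1, evF, ← he] at e1
  rw [← hn2, evG, ← he] at e2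
  rw [← hn1] at a1 a2
  rw [← hn2] at b1 b2
  have hxF : F.eval x ≠ 0 := by
    intro h0
    apply a1
    have h1 := fvq (N := n1) (f := F1) hn1.ge (s := x.num) hxd
    have h2 : ((x.num : ℚ) / ((x.den : ℤ) : ℚ)) = x := by
      rw [Int.cast_natCast]; exact Rat.num_div_den x
    rw [h2, evF, h0, mul_zero, mul_zero] at h1
    exact_mod_cast h1
  rw [padicValRat.mul hc1q hxF, padicValRat.of_int] at e1
  rw [padicValRat.mul hc2q hx, padicValRat.of_int] at e2
  have hle : n2 ≤ n1 := by omega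
  have e5 : padicValRat q (F.eval x / G.eval x) + ((n1 - n2 : ℕ) : ℤ) * e =
      (padicValInt q (fv n1 F1 x.num x.den) : ℤ) - padicValInt q (fv n2 G1 x.num x.den)
      - padicValInt q c1 + padicValInt q c2 := by
    rw [padicValRat.div hxF hx, Nat.cast_sub hle]
    linear_combination e1 - e2
  rw [e5]
  have a2' : (padicValInt q (fv n1 F1 x.num x.den) : ℤ) ≤ V := by exact_mod_cast a2
  have b2' : (padicValInt q (fv n2 G1 x.num x.den) : ℤ) ≤ V := by exact_mod_cast b2
  have v1' : (padicValInt q c1 : ℤ) ≤ V := by exact_mod_cast v1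
  have v2' : (padicValInt q c2 : ℤ) ≤ V := by exact_mod_cast v2
  have p1 : (0 : ℤ) ≤ padicValInt q (fv n1 F1 x.num x.den) := Nat.cast_nonneg _
  have p2 : (0 : ℤ) ≤ padicValInt q (fv n2 G1 x.num x.den) := Nat.cast_nonneg _
  have p3 : (0 : ℤ) ≤ padicValInt q c1 := Nat.cast_nonneg _
  have p4 : (0 : ℤ) ≤ padicValInt q c2 := Nat.cast_nonneg _
  have hKz : ((4 : ℕ) : ℤ) * V = 4 * V := by norm_num
  rw [hKz, abs_le]
  constructor <;> linarith

/-- coprime coordinates of a point of the projective line -/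
def pt : Option ℚ → ℤ × ℤ
  | none => (1, 0)
  | some r => (r.num, r.den)

/-- the linear form which vanishes at `π`, at the coprime coordinates of `x` -/
def elp (π : Option ℚ) (x : ℚ) : ℤ := (pt π).2 * x.num - (pt π).1 * (x.den : ℤ)

/-- `π` is a pole of `F / G` -/
def IsPole (F G : ℚ[X]) : Option ℚ → Prop
  | none => G.natDegree < F.natDegree
  | some r => G.eval r = 0

theorem elp_some (π x : ℚ) : elp (some π) x = ell π x := rfl

theorem elp_none (x : ℚ) : elp none x = -(x.den : ℤ) := by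
  unfold elp pt
  ring

/-- **The valuation near a rational pole of the projective line.** -/
theorem loc_pt (F G : ℚ[X]) (hcop : IsCoprime F G) (hG : G ≠ 0) (π : Option ℚ)
    (hπ : IsPole F G π) :
    ∃ m M K : ℕ, 1 ≤ m ∧ 1 ≤ M ∧ ∀ x : ℚ, G.eval x ≠ 0 → ∀ q : ℕ, q.Prime →
      K * padicValNat q M < padicValInt q (elp π x) →
      |padicValRat q (F.eval x / G.eval x) + m * padicValInt q (elp π x)| ≤
        K * padicValNat q M := by
  cases π with
  | some r => exact loc F G hcop hG r hπ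
  | none =>
    obtain ⟨m, M, K, h1, h2, h3⟩ := loc_inf F G hG hπ
    refine ⟨m, M, K, h1, h2, fun x hx q hq => ?_⟩
    have e1 : padicValInt q (elp none x) = padicValNat q x.den := by
      rw [elp_none]
      show padicValNat q (-(x.den : ℤ)).natAbs = _
      rw [Int.natAbs_neg, Int.natAbs_natCast]
    rw [e1]
    exact h3 x hx q hq

end Pool.Agent.U964.LF
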