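import Mathlib
import Pool.Agent.H440R2.Schwarz
import Pool.Agent.U964.LF.Zero

/-!
A lower bound for linear forms in two logarithms of rational numbers which is linear in the
logarithmic height of the second number (after `Pool/Agent/H440R2/LFL.lean` of helper440, with
different ranges and binomial polynomials).
-/

set_option autoImplicit false

namespace Pool.Agent.U964.LF

open Finset
open scoped Kronecker Nat

lemma exists_det_ne_zero {ι T : Type*} [Fintype ι] [DecidableEq ι] (w : T → ι → ℝ) (T' : Set T)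
    (h : ∀ c : ι → ℝ, (∀ τ ∈ T', ∑ i, c i * w τ i = 0) → c = 0) :
    ∃ j : ι → T, (∀ i, j i ∈ T') ∧ (Matrix.of fun i i' => w (j i') i).det ≠ 0 := by
  classical
  have hspan : Submodule.span ℝ (w '' T') = ⊤ := by
    by_contra hne
    have hlt : Submodule.span ℝ (w '' T') < ⊤ := lt_top_iff_ne_top.mpr hne
    obtain ⟨f, hf0, hf⟩ := Submodule.exists_le_ker_of_lt_top _ hlt
    apply hf0
    have hc := h (fun i => f (fun j => if i = j then 1 else 0)) (by
      intro τ hτ
      have h1 : w τ ∈ Submodule.span ℝ (w '' T') := Submodule.subset_span ⟨τ, hτ, rfl⟩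
      have h2 : f (w τ) = 0 := hf h1
      rw [LinearMap.pi_apply_eq_sum_univ f (w τ)] at h2
      refine Eq.trans (sum_congr rfl ?_) h2
      intro i _
      rw [smul_eq_mul, mul_comm])
    ext x
    have h3 : ∀ i, f (fun j => if i = j then (1:ℝ) else 0) = 0 := fun i => congrFun hc i
    simp only [LinearMap.coe_comp, Function.comp_apply, LinearMap.zero_apply, LinearMap.zero_comp]
    rw [LinearMap.pi_apply_eq_sum_univ f]
    simp [h3]
  obtain ⟨f, hfs, hfspan, hfind⟩ := Submodule.exists_fun_fin_finrank_span_eq ℝ (w '' T')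
  have hrank : Module.finrank ℝ (Submodule.span ℝ (w '' T')) = Fintype.card ι := by
    rw [hspan, finrank_top, Module.finrank_fintype_fun_eq_card]
  have e : ι ≃ Fin (Module.finrank ℝ (Submodule.span ℝ (w '' T'))) :=
    (Fintype.equivFin ι).trans (finCongr hrank.symm)
  choose g hg using hfs
  refine ⟨fun i => g (e i), fun i => (hg _).1, ?_⟩
  have hind : LinearIndependent ℝ (fun i : ι => w (g (e i))) := by
    have : (fun i : ι => w (g (e i))) = f ∘ e := by
      ext i
      simp [(hg _).2]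
    rw [this]
    exact hfind.comp _ e.injective
  have h2 : (Matrix.of fun i i' => w (g (e i')) i) =
      (Matrix.of fun i => w (g (e i))).transpose := by
    ext i i'
    simp
  rw [h2, Matrix.det_transpose]
  have h3 : IsUnit (Matrix.of fun i => w (g (e i))) :=
    Matrix.linearIndependent_rows_iff_isUnit.mp hind
  rw [Matrix.isUnit_iff_isUnit_det] at h3
  exact h3.ne_zero

/-- the matrix of the binomial polynomials -/
noncomputable def T0 (K : ℕ) : Matrix (Fin K) (Fin K) ℝ :=
  Matrix.of fun k k' => (descPochhammer ℝ (k : ℕ)).coeff (k' : ℕ) / ((k : ℕ)! : ℝ)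

lemma det_T0 (K : ℕ) : (T0 K).det = ∏ k : Fin K, (((k : ℕ)! : ℝ))⁻¹ := by
  rw [Matrix.det_of_lowerTriangular]
  · refine prod_congr rfl fun k _ => ?_
    have h1 : (descPochhammer ℝ (k : ℕ)).coeff (k : ℕ) = 1 := by
      have h2 := monic_descPochhammer ℝ (k : ℕ)
      have h3 := descPochhammer_natDegree ℝ (k : ℕ)
      rw [Polynomial.Monic, Polynomial.leadingCoeff, h3] at h2
      exact h2
    simp only [T0, Matrix.of_apply, h1, one_div]
  · intro i j hij
    have hij' : i < j := by simpa using hij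
    simp only [T0, Matrix.of_apply]
    rw [Polynomial.coeff_eq_zero_of_natDegree_lt, zero_div]
    rw [descPochhammer_natDegree]
    exact hij'

lemma choose_eq (K : ℕ) (k : Fin K) (n : ℕ) :
    ∑ k' : Fin K, T0 K k k' * (n : ℝ) ^ (k' : ℕ) = (n.choose (k : ℕ) : ℝ) := by
  have h1 : (descPochhammer ℝ (k : ℕ)).eval (n : ℝ) =
      ∑ k' : Fin K, (descPochhammer ℝ (k : ℕ)).coeff (k' : ℕ) * (n : ℝ) ^ (k' : ℕ) := by
    rw [Polynomial.eval_eq_sum_range' (n := K)
      (by rw [descPochhammer_natDegree]; exact k.2), Finset.sum_range]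
  have h2 : (descPochhammer ℝ (k : ℕ)).eval (n : ℝ) = ((k : ℕ)! : ℝ) * (n.choose (k : ℕ) : ℝ) := by
    rw [descPochhammer_eval_eq_descFactorial, Nat.descFactorial_eq_factorial_mul_choose]
    push_cast
    ring
  have h3 : (((k : ℕ)! : ℝ)) ≠ 0 := by positivity
  have h4 : ∑ k' : Fin K, T0 K k k' * (n : ℝ) ^ (k' : ℕ) =
      (∑ k' : Fin K, (descPochhammer ℝ (k : ℕ)).coeff (k' : ℕ) * (n : ℝ) ^ (k' : ℕ)) /
        ((k : ℕ)! : ℝ) := by
    rw [Finset.sum_div]
    refine sum_congr rfl fun k' _ => ?_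
    simp only [T0, Matrix.of_apply]
    ring
  rw [h4, ← h1, h2]
  field_simp

/-- the determinant with binomial coefficients -/
lemma det_choose (K L : ℕ) (x : Fin K × Fin L → ℕ) (w : Fin K × Fin L → ℝ) :
    (Matrix.of fun i i' : Fin K × Fin L => ((x i').choose (i.1 : ℕ) : ℝ) * w i' ^ (i.2 : ℕ)).det *
      ∏ i : Fin K × Fin L, (((i.1 : ℕ)! : ℝ)) =
    (Matrix.of fun i i' : Fin K × Fin L => (x i' : ℝ) ^ (i.1 : ℕ) * w i' ^ (i.2 : ℕ)).det := by
  have h1 : (Matrix.of fun i i' : Fin K × Fin L =>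
        ((x i').choose (i.1 : ℕ) : ℝ) * w i' ^ (i.2 : ℕ)) =
      (T0 K ⊗ₖ (1 : Matrix (Fin L) (Fin L) ℝ)) *
        (Matrix.of fun i i' : Fin K × Fin L => (x i' : ℝ) ^ (i.1 : ℕ) * w i' ^ (i.2 : ℕ)) := by
    ext ⟨k, l⟩ i'
    rw [Matrix.mul_apply, Fintype.sum_prod_type]
    simp only [Matrix.of_apply, Matrix.kroneckerMap_apply, Matrix.one_apply]
    rw [← choose_eq K k (x i'), Finset.sum_mul]
    refine sum_congr rfl fun k' _ => ?_
    rw [Finset.sum_eq_single l]
    · simp
      ring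
    · intro l' _ hl'
      rw [if_neg (Ne.symm hl')]
      ring
    · simp
  rw [h1, Matrix.det_mul, Matrix.det_kronecker, det_T0, Matrix.det_one, one_pow, mul_one]
  have h2 : (∏ k : Fin K, (((k : ℕ)! : ℝ))⁻¹) ^ Fintype.card (Fin L) *
      ∏ i : Fin K × Fin L, (((i.1 : ℕ)! : ℝ)) = 1 := by
    rw [Fintype.prod_prod_type]
    simp only [Finset.prod_const, Finset.card_univ, Finset.prod_pow]
    rw [← mul_pow, ← Finset.prod_mul_distrib]
    have : ∀ k : Fin K, (((k : ℕ)! : ℝ))⁻¹ * ((k : ℕ)! : ℝ) = 1 := fun k => by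
      have : (((k : ℕ)! : ℝ)) ≠ 0 := by positivity
      field_simp
    simp [this]
  calc _ = ((∏ k : Fin K, (((k : ℕ)! : ℝ))⁻¹) ^ Fintype.card (Fin L) *
      ∏ i : Fin K × Fin L, (((i.1 : ℕ)! : ℝ))) *
        (Matrix.of fun i i' : Fin K × Fin L => (x i' : ℝ) ^ (i.1 : ℕ) * w i' ^ (i.2 : ℕ)).det := by
        ring
    _ = _ := by rw [h2, one_mul]

/-- `y ^ k / k! ≤ (e y / K) ^ K` for `k ≤ K ≤ y` -/
lemma pow_div_factorial_le (K k : ℕ) (hk : k ≤ K) (hK : 1 ≤ K) (y : ℝ) (hy : (K : ℝ) ≤ y) :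
    y ^ k / (k ! : ℝ) ≤ (Real.exp 1 * y / K) ^ K := by
  have hy0 : 0 < y := lt_of_lt_of_le (by exact_mod_cast hK) hy
  have h1 : ∀ j : ℕ, k + j ≤ K → y ^ k / (k ! : ℝ) ≤ y ^ (k + j) / ((k + j)! : ℝ) := by
    intro j
    induction j with
    | zero => intro _; simp
    | succ j ih =>
      intro hj
      refine (ih (by omega)).trans ?_
      rw [← add_assoc, pow_succ, Nat.factorial_succ]
      push_cast
      rw [div_le_div_iff₀ (by positivity) (by positivity)]
      have h2 : ((k : ℝ) + j + 1) ≤ y := by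
        refine le_trans ?_ hy
        exact_mod_cast hj
      have h3 : 0 ≤ y ^ (k + j) * ((k + j)! : ℝ) := by positivity
      nlinarith
  have h2 := h1 (K - k) (by omega)
  rw [Nat.add_sub_cancel' hk] at h2
  refine h2.trans ?_
  have h3 := Real.pow_div_factorial_le_exp (K : ℝ) (by positivity) K
  have hK0 : (0 : ℝ) < K := by exact_mod_cast hK
  have h4 : Real.exp K = Real.exp 1 ^ K := by rw [← Real.exp_nat_mul, mul_one]
  rw [h4] at h3
  rw [div_pow, mul_pow]
  rw [div_le_div_iff₀ (by positivity) (by positivity)]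
  rw [div_le_iff₀ (by positivity)] at h3
  have h5 : 0 ≤ y ^ K := by positivity
  nlinarith

end Pool.Agent.U964.LF
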