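import Mathlib
import Pool.Agent.U964.LF.Main

/-!
For all large exponents `n` the number `(u / v) (y / z) ^ n` is not near `1`, uniformly in `y`, `z`
and in the rational numbers `u / v` of bounded height.
-/

set_option autoImplicit false

namespace Pool.Agent.U964.LF

open Filter

/-- `C (1 + log n) ^ 2 ≤ δ n` for large `n` -/
lemma ev_log (C δ : ℝ) (hδ : 0 < δ) :
    ∀ᶠ n : ℕ in atTop, C * (1 + Real.log n) ^ 2 ≤ δ * n := by
  have h1 : (fun x : ℝ => (Real.log x) ^ 2) =o[atTop] (fun x : ℝ => x) := by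
    exact Real.isLittleO_pow_log_id_atTop (n := 2)
  have h2 : (fun x : ℝ => C * (1 + Real.log x) ^ 2) =o[atTop] (fun x : ℝ => x) := by
    have h3 : (fun x : ℝ => C * (1 + Real.log x) ^ 2) =
        fun x : ℝ => C * 1 + 2 * C * Real.log x + C * (Real.log x) ^ 2 := by
      ext x; ring
    rw [h3]
    have h4 : (fun _ : ℝ => C * 1) =o[atTop] (fun x : ℝ => x) :=
      Asymptotics.isLittleO_const_id_atTop _
    have h5 : (fun x : ℝ => 2 * C * Real.log x) =o[atTop] (fun x : ℝ => x) := by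
      exact Real.isLittleO_log_id_atTop.const_mul_left (2 * C)
    exact (h4.add h5).add (h1.const_mul_left C)
  have h3 := h2.bound hδ
  have h4 := tendsto_natCast_atTop_atTop (R := ℝ)
  filter_upwards [h4.eventually h3] with n hn
  have h5 := (le_abs_self _).trans hn
  rwa [Real.norm_of_nonneg (by positivity)] at h5

/-- the case `u > v` -/
theorem near_gt (H : ℕ) (hH : 1 ≤ H) (δ : ℝ) (hδ : 0 < δ) : ∃ N : ℕ, 1 ≤ N ∧ ∀ n : ℕ, N ≤ n →
    ∀ u v : ℕ, 1 ≤ v → v < u → Real.log u ≤ H → Real.log v ≤ H →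
    ∀ y z : ℕ, 1 ≤ y → 1 ≤ z → 2 ≤ max y z →
      Real.exp (-(δ * n * Real.log (max y z : ℕ))) ≤
        |n * Real.log ((y : ℝ) / z) - Real.log ((u : ℝ) / v)| := by
  have h1 := ev_log (73476 * (H:ℝ) ^ 2 * 24 ^ 2) δ hδ
  have h2 := ev_log (157 * (H:ℝ) * 24) 1 one_pos
  obtain ⟨N, hN⟩ := Filter.eventually_atTop.1 (h1.and (h2.and (eventually_ge_atTop 1)))
  refine ⟨max N 1, le_max_right _ _, fun n hn u v hv huv hu hv' y z hy hz hyz => ?_⟩
  obtain ⟨g1, g2, g3⟩ := hN n (le_trans (le_max_left _ _) hn)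
  have hHr : (1:ℝ) ≤ H := by exact_mod_cast hH
  have hn1 : (1:ℝ) ≤ n := by exact_mod_cast g3
  have hlogn : 0 ≤ Real.log n := Real.log_nonneg hn1
  obtain ⟨L, hL⟩ : ∃ L : ℕ, L = ⌈8 * (2 + Real.log n)⌉₊ := ⟨_, rfl⟩
  have hLge : 8 * (2 + Real.log n) ≤ L := by rw [hL]; exact Nat.le_ceil _
  have hLle : (L:ℝ) ≤ 24 * (1 + Real.log n) := by
    have := Nat.ceil_lt_add_one (a := 8 * (2 + Real.log n)) (by positivity)
    rw [← hL] at this
    linarith
  have hL1 : 1 ≤ L := by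
    have : (1:ℝ) ≤ L := by linarith
    exact_mod_cast this
  obtain ⟨m, hm⟩ : ∃ m : ℕ, m = max y z := ⟨_, rfl⟩
  rw [← hm] at hyz
  have hm2 : (2:ℝ) ≤ m := by exact_mod_cast hyz
  have hlogm : 1 / 2 < Real.log m := by
    have h3 : Real.log 2 ≤ Real.log m := Real.log_le_log (by norm_num) hm2
    have := Real.log_two_gt_d9
    linarith
  obtain ⟨Y, hY⟩ : ∃ Y : ℕ, Y = ⌈Real.log m⌉₊ := ⟨_, rfl⟩
  have hYge : Real.log m ≤ Y := by rw [hY]; exact Nat.le_ceil _
  have hYle : (Y:ℝ) ≤ 3 * Real.log m := by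
    have := Nat.ceil_lt_add_one (a := Real.log m) (by linarith)
    rw [← hY] at this
    linarith
  have hY1 : 1 ≤ Y := by
    rw [hY, Nat.one_le_ceil_iff]
    linarith
  have hb : 157 * H * L ≤ n := by
    have h3 : (157:ℝ) * H * L ≤ n := by
      calc (157:ℝ) * H * L ≤ 157 * H * (24 * (1 + Real.log n)) := by gcongr
        _ ≤ 157 * H * 24 * (1 + Real.log n) ^ 2 := by
          have h4 : (1 + Real.log n) ≤ (1 + Real.log n) ^ 2 := by nlinarith
          nlinarith [mul_nonneg (by positivity : (0:ℝ) ≤ 157 * H * 24) (sub_nonneg.2 h4)]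
        _ ≤ 1 * n := g2
        _ = n := one_mul _
    exact_mod_cast h3
  have hz' : Real.log z ≤ Y := by
    refine le_trans ?_ hYge
    apply Real.log_le_log (by exact_mod_cast hz)
    rw [hm]
    exact_mod_cast le_max_right y z
  have key := lfl_core u v y z 1 n Y H L hv huv hy hz (Nat.coprime_one_left n) g3 hY1 hH hL1
    hu hv' hz' hb hLge
  rw [Nat.cast_one, one_mul] at key
  rw [← hm]
  refine le_trans ?_ key.le
  apply Real.exp_le_exp.2
  rw [neg_le_neg_iff]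
  have h5 : (L:ℝ) ^ 2 ≤ (24 * (1 + Real.log n)) ^ 2 := by
    apply pow_le_pow_left₀ (by positivity) hLle
  calc 24492 * (H:ℝ) ^ 2 * (L:ℝ) ^ 2 * Y
      ≤ 24492 * (H:ℝ) ^ 2 * (24 * (1 + Real.log n)) ^ 2 * (3 * Real.log m) := by gcongr
    _ = (73476 * (H:ℝ) ^ 2 * 24 ^ 2 * (1 + Real.log n) ^ 2) * Real.log m := by ring
    _ ≤ (δ * n) * Real.log m := by gcongr

/-- the case `u = v` -/
theorem near_one (y z : ℕ) (hy : 1 ≤ y) (hz : 1 ≤ z) (hne : y ≠ z) :
    Real.exp (-Real.log (max y z : ℕ)) ≤ |Real.log ((y : ℝ) / z)| := by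
  have key : ∀ y z : ℕ, 1 ≤ y → 1 ≤ z → z < y →
      Real.exp (-Real.log (max y z : ℕ)) ≤ |Real.log ((y : ℝ) / z)| := by
    intro y z hy hz h
    have hy0 : (0:ℝ) < y := by exact_mod_cast hy
    have hz0 : (0:ℝ) < z := by exact_mod_cast hz
    rw [max_eq_left h.le, Real.exp_neg, Real.exp_log hy0]
    refine le_trans ?_ (le_abs_self _)
    have h1 := Real.log_le_sub_one_of_pos (show (0:ℝ) < z / y by positivity)
    have h2 : Real.log ((y:ℝ) / z) = -Real.log ((z:ℝ) / y) := by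
      rw [← Real.log_inv, inv_div]
    rw [h2]
    have h3 : ((z:ℝ) + 1) ≤ y := by exact_mod_cast h
    have h4 : (z:ℝ) / y ≤ 1 - (y:ℝ)⁻¹ := by
      rw [div_le_iff₀ hy0, sub_mul, inv_mul_cancel₀ hy0.ne']
      linarith
    linarith
  rcases lt_or_gt_of_ne hne with h | h
  · have h1 := key z y hz hy h
    rw [max_comm] at h1
    rwa [show Real.log ((y:ℝ) / z) = -Real.log ((z:ℝ) / y) by rw [← Real.log_inv, inv_div],
      abs_neg]
  · exact key y z hy hz h

/-- **The numbers `(u / v) (y / z) ^ n` are not near `1`.** -/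
theorem near (H : ℕ) (δ : ℝ) (hδ : 0 < δ) : ∃ N : ℕ, 1 ≤ N ∧ ∀ n : ℕ, N ≤ n →
    ∀ u v : ℕ, 1 ≤ u → 1 ≤ v → Real.log u ≤ H → Real.log v ≤ H →
    ∀ y z : ℕ, 1 ≤ y → 1 ≤ z → 2 ≤ max y z → (u ≠ v ∨ y ≠ z) →
      Real.exp (-(δ * n * Real.log (max y z : ℕ))) ≤
        |Real.log ((u : ℝ) / v) + n * Real.log ((y : ℝ) / z)| := by
  obtain ⟨N1, hN1, h1⟩ := near_gt (H + 1) (by omega) δ hδ
  obtain ⟨N2, hN2⟩ : ∃ N2 : ℕ, 1 / δ ≤ N2 := exists_nat_ge _
  refine ⟨max N1 N2, hN1.trans (le_max_left _ _), fun n hn u v hu hv hu' hv' y z hy hz hyz hne => ?_⟩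
  have hnN1 : N1 ≤ n := (le_max_left _ _).trans hn
  have hnN2 : N2 ≤ n := (le_max_right _ _).trans hn
  have hH1 : (H:ℝ) ≤ ((H + 1 : ℕ) : ℝ) := by push_cast; linarith
  have inv : ∀ a b : ℕ, Real.log ((a:ℝ) / b) = -Real.log ((b:ℝ) / a) := by
    intro a b
    rw [← Real.log_inv, inv_div]
  rcases lt_trichotomy u v with h | h | h
  · have := h1 n hnN1 v u hu h (hv'.trans hH1) (hu'.trans hH1) y z hy hz hyz
    rw [inv u v]
    rwa [show -Real.log ((v:ℝ) / u) + n * Real.log ((y:ℝ) / z) =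
      n * Real.log ((y:ℝ) / z) - Real.log ((v:ℝ) / u) by ring]
  · subst h
    have hne' : y ≠ z := by
      rcases hne with h2 | h2
      · exact absurd rfl h2
      · exact h2
    have hu0 : (u:ℝ) ≠ 0 := by
      have : u ≠ 0 := by omega
      exact_mod_cast this
    rw [div_self hu0, Real.log_one, zero_add, abs_mul, Nat.abs_cast]
    have h2 := near_one y z hy hz hne'
    have hn1 : (1:ℝ) ≤ n := by exact_mod_cast hN1.trans hnN1
    have hδn : 1 ≤ δ * n := by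
      have h3 : 1 / δ ≤ n := hN2.trans (by exact_mod_cast hnN2)
      rwa [div_le_iff₀ hδ, mul_comm] at h3
    have hlog : 0 ≤ Real.log (max y z : ℕ) := Real.log_natCast_nonneg _
    calc Real.exp (-(δ * n * Real.log (max y z : ℕ)))
        ≤ Real.exp (-Real.log (max y z : ℕ)) := by
          apply Real.exp_le_exp.2
          rw [neg_le_neg_iff]
          nlinarith
      _ ≤ |Real.log ((y:ℝ) / z)| := h2
      _ ≤ n * |Real.log ((y:ℝ) / z)| := by
          nlinarith [abs_nonneg (Real.log ((y:ℝ) / z))]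
  · have := h1 n hnN1 u v hv h (hu'.trans hH1) (hv'.trans hH1) z y hz hy (by rwa [max_comm])
    rw [max_comm z y] at this
    rw [← abs_neg]
    rwa [show -(Real.log ((u:ℝ) / v) + n * Real.log ((y:ℝ) / z)) =
      n * Real.log ((z:ℝ) / y) - Real.log ((u:ℝ) / v) by rw [inv y z]; ring]

end Pool.Agent.U964.LF
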