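import Mathlib
import Pool.Agent.U964.LF.Loc
import Pool.Agent.U964.LF.Near

/-!
Rational numbers near a rational point at which all pole orders of a rational function with two
rational poles are divisible by a large integer `n`.
-/

set_option autoImplicit false

namespace Pool.Agent.U964.LF

open Polynomial Finset

/-- the pole orders of `r` are divisible by `n` -/
def Dv (n : ℕ) (r : ℚ) : Prop := ∀ q : ℕ, q.Prime → padicValRat q r < 0 → (n : ℤ) ∣ padicValRat q r

theorem log_abs_eq (l : ℤ) (T : Finset ℕ) (hTp : ∀ q ∈ T, q.Prime)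
    (hT : l.natAbs.primeFactors ⊆ T) :
    Real.log |(l : ℝ)| = ∑ q ∈ T, (padicValInt q l : ℝ) * Real.log q := by
  have h1 : |(l : ℝ)| = ((l.natAbs : ℕ) : ℝ) := by
    rw [Nat.cast_natAbs, Int.cast_abs]
  rw [h1, Real.log_nat_eq_sum_factorization, Finsupp.sum, Nat.support_factorization]
  rw [Finset.sum_congr rfl (fun q hq => by
    rw [Nat.factorization_def _ (Nat.prime_of_mem_primeFactors hq)])]
  apply Finset.sum_subset hT
  intro q hqT hq
  have : padicValNat q l.natAbs = 0 := by
    rw [← Nat.factorization_def _ (hTp q hqT), ← Finsupp.notMem_support_iff,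
      Nat.support_factorization]
    exact hq
  rw [this]
  simp

/-- **A rational pole.** -/
theorem pole_log (F G : ℚ[X]) (hcop : IsCoprime F G) (hG : G ≠ 0) (π : Option ℚ)
    (hπ : IsPole F G π) :
    ∃ m H : ℕ, 1 ≤ m ∧ ∀ x : ℚ, G.eval x ≠ 0 → ∀ n : ℕ, Dv n (F.eval x / G.eval x) →
      ∃ u v y : ℕ, 1 ≤ u ∧ 1 ≤ v ∧ 1 ≤ y ∧ Real.log u ≤ H ∧ Real.log v ≤ H ∧
        m * Real.log |(elp π x : ℝ)| = n * Real.log y + Real.log u - Real.log v := by
  classical
  obtain ⟨m, M, K, hm, hM, hloc⟩ := loc_pt F G hcop hG π hπ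
  refine ⟨m, ⌈(m * K : ℕ) * Real.log M⌉₊, hm, fun x hx n hn => ?_⟩
  have h1 : ∀ q : ℕ, ∃ (f : ℕ) (c : ℤ), q.Prime →
      ((m : ℤ) * padicValInt q (elp π x) = n * f + c ∧ |c| ≤ (m * K : ℕ) * padicValNat q M) := by
    intro q
    by_cases hq : q.Prime
    swap
    · exact ⟨0, 0, fun h => absurd h hq⟩
    by_cases hbig : K * padicValNat q M < padicValInt q (elp π x)
    · have h2 := hloc x hx q hq hbig
      rw [abs_le] at h2
      have hbig' : (K : ℤ) * padicValNat q M < padicValInt q (elp π x) := by exact_mod_cast hbig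
      have hmz : (1 : ℤ) ≤ m := by exact_mod_cast hm
      have he0 : (0 : ℤ) ≤ padicValInt q (elp π x) := Nat.cast_nonneg _
      have hme : (padicValInt q (elp π x) : ℤ) ≤ m * padicValInt q (elp π x) := by nlinarith
      have hneg : padicValRat q (F.eval x / G.eval x) < 0 := by linarith [h2.2]
      obtain ⟨k, hk⟩ := hn q hq hneg
      have hk0 : 0 ≤ -k := by
        by_contra hcon
        rw [not_le] at hcon
        have : 0 ≤ (n : ℤ) * k := mul_nonneg (Nat.cast_nonneg _) (by linarith)
        linarith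
      obtain ⟨f, hf⟩ := Int.eq_ofNat_of_zero_le hk0
      refine ⟨f, (m : ℤ) * padicValInt q (elp π x) + padicValRat q (F.eval x / G.eval x), fun _ => ?_⟩
      constructor
      · rw [hk]
        have : (f : ℤ) = -k := hf.symm
        rw [this]
        ring
      · have h3 : |(m : ℤ) * padicValInt q (elp π x) + padicValRat q (F.eval x / G.eval x)| ≤
            K * padicValNat q M := by
          rw [abs_le]
          constructor <;> linarith [h2.1, h2.2]
        refine h3.trans ?_
        have h4 : K * padicValNat q M ≤ m * K * padicValNat q M := by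
          calc K * padicValNat q M = 1 * (K * padicValNat q M) := (one_mul _).symm
            _ ≤ m * (K * padicValNat q M) := Nat.mul_le_mul_right _ hm
            _ = _ := by ring
        exact_mod_cast h4
    · refine ⟨0, (m : ℤ) * padicValInt q (elp π x), fun _ => ⟨by simp, ?_⟩⟩
      rw [not_lt] at hbig
      rw [abs_of_nonneg (by positivity)]
      have h4 : m * padicValInt q (elp π x) ≤ m * K * padicValNat q M := by
        calc m * padicValInt q (elp π x) ≤ m * (K * padicValNat q M) := Nat.mul_le_mul_left _ hbig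
          _ = _ := by ring
      exact_mod_cast h4
  choose f c hfc using h1
  obtain ⟨S, hS⟩ : ∃ S : Finset ℕ, S = M.primeFactors := ⟨_, rfl⟩
  obtain ⟨T, hT⟩ : ∃ T : Finset ℕ, T = (elp π x).natAbs.primeFactors ∪ S := ⟨_, rfl⟩
  have hTp : ∀ q ∈ T, q.Prime := by
    intro q hq
    rw [hT, hS, Finset.mem_union] at hq
    rcases hq with h | h <;> exact Nat.prime_of_mem_primeFactors h
  have hST : S ⊆ T := by rw [hT]; exact Finset.subset_union_right
  have hSp : ∀ q ∈ S, q.Prime := fun q hq => hTp q (hST hq)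
  have hprod : ∀ (U : Finset ℕ) (g : ℕ → ℕ), (∀ q ∈ U, q.Prime) →
      1 ≤ ∏ q ∈ U, q ^ g q ∧
        Real.log ((∏ q ∈ U, q ^ g q : ℕ) : ℝ) = ∑ q ∈ U, (g q : ℝ) * Real.log q := by
    intro U g hU
    constructor
    · exact Finset.prod_pos fun q hq => pow_pos (hU q hq).pos _
    · push_cast
      rw [Real.log_prod (fun q hq => by
        have := (hU q hq).pos
        positivity)]
      exact Finset.sum_congr rfl fun q _ => Real.log_pow _ _
  obtain ⟨u1, u2⟩ := hprod S (fun q => (c q).toNat) hSp
  obtain ⟨v1, v2⟩ := hprod S (fun q => (-c q).toNat) hSp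
  obtain ⟨y1, y2⟩ := hprod T f hTp
  have hbound : ∀ g : ℕ → ℕ, (∀ q ∈ S, (g q : ℤ) ≤ |c q|) →
      ∑ q ∈ S, (g q : ℝ) * Real.log q ≤ (⌈(m * K : ℕ) * Real.log M⌉₊ : ℝ) := by
    intro g hg
    refine le_trans ?_ (Nat.le_ceil _)
    have hlogM : Real.log M = ∑ q ∈ S, (padicValNat q M : ℝ) * Real.log q := by
      have h2 := log_abs_eq (M : ℤ) S hSp (by rw [hS, Int.natAbs_natCast])
      rw [Int.cast_natCast, Nat.abs_cast] at h2
      rw [h2]
      refine Finset.sum_congr rfl fun q _ => ?_
      show ((padicValNat q ((M : ℤ)).natAbs : ℕ) : ℝ) * _ = _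
      rw [Int.natAbs_natCast]
    rw [hlogM, Finset.mul_sum]
    refine Finset.sum_le_sum fun q hq => ?_
    have hlq : 0 ≤ Real.log q := Real.log_natCast_nonneg q
    rw [← mul_assoc]
    apply mul_le_mul_of_nonneg_right _ hlq
    have h3 : (g q : ℤ) ≤ (m * K : ℕ) * padicValNat q M :=
      (hg q hq).trans (hfc q (hSp q hq)).2
    exact_mod_cast h3
  refine ⟨∏ q ∈ S, q ^ (c q).toNat, ∏ q ∈ S, q ^ (-c q).toNat, ∏ q ∈ T, q ^ f q, u1, v1, y1,
    ?_, ?_, ?_⟩
  · rw [u2]
    refine hbound _ fun q _ => ?_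
    rw [Int.toNat_eq_max]
    exact max_le (le_abs_self _) (abs_nonneg _)
  · rw [v2]
    refine hbound _ fun q _ => ?_
    rw [Int.toNat_eq_max]
    exact max_le (neg_le_abs _) (abs_nonneg _)
  · rw [u2, v2, y2, log_abs_eq (elp π x) T hTp (by rw [hT]; exact Finset.subset_union_left)]
    have e1 : ∑ q ∈ S, ((c q).toNat : ℝ) * Real.log q - ∑ q ∈ S, ((-c q).toNat : ℝ) * Real.log q =
        ∑ q ∈ T, (c q : ℝ) * Real.log q := by
      rw [← Finset.sum_sub_distrib]
      have e2 : ∑ q ∈ S, (c q : ℝ) * Real.log q = ∑ q ∈ T, (c q : ℝ) * Real.log q := by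
        apply Finset.sum_subset hST
        intro q hqT hqS
        have hqp := hTp q hqT
        have h2 := (hfc q hqp).2
        have h3 : padicValNat q M = 0 := by
          rw [← Nat.factorization_def _ hqp, ← Finsupp.notMem_support_iff,
            Nat.support_factorization, ← hS]
          exact hqS
        rw [h3, Nat.cast_zero, mul_zero] at h2
        have h4 : c q = 0 := abs_eq_zero.1 (le_antisymm h2 (abs_nonneg _))
        rw [h4]; simp
      rw [← e2]
      refine Finset.sum_congr rfl fun q _ => ?_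
      rw [← sub_mul]
      congr 1
      have := Int.toNat_sub_toNat_neg (c q)
      exact_mod_cast this
    rw [add_sub_assoc, e1, Finset.mul_sum, Finset.mul_sum, ← Finset.sum_add_distrib]
    refine Finset.sum_congr rfl fun q hq => ?_
    have h2 := (hfc q (hTp q hq)).1
    have h3 : (m : ℝ) * padicValInt q (elp π x) = n * f q + c q := by exact_mod_cast h2
    calc (m : ℝ) * ((padicValInt q (elp π x) : ℝ) * Real.log q)
        = ((m : ℝ) * padicValInt q (elp π x)) * Real.log q := by ring
      _ = _ := by rw [h3]; ring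

end Pool.Agent.U964.LF
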