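import Mathlib
import Pool.Agent.U964.LF.Pole

/-!
Rational numbers near a rational point at which all pole orders of a rational function with two
rational poles are divisible by a large integer `n`: the value of the function is an integer.
-/

set_option autoImplicit false

namespace Pool.Agent.U964.LF

open Polynomial Finset

/-- the height -/
def ht (x : ℚ) : ℕ := max x.num.natAbs x.den

theorem one_le_ht (x : ℚ) : 1 ≤ ht x := (Nat.one_le_iff_ne_zero.2 x.den_nz).trans (le_max_right _ _)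

/-- the size of the coefficients -/
def sz (π : Option ℚ) : ℕ := (pt π).1.natAbs + (pt π).2.natAbs

theorem one_le_sz (π : Option ℚ) : 1 ≤ sz π := by
  cases π with
  | none => simp [sz, pt]
  | some r =>
    have : 1 ≤ r.den := Nat.one_le_iff_ne_zero.2 r.den_nz
    unfold sz pt
    simp only [Int.natAbs_natCast]
    omega

theorem elp_le (π : Option ℚ) (x : ℚ) : (elp π x).natAbs ≤ sz π * ht x := by
  unfold elp sz ht
  refine (Int.natAbs_sub_le _ _).trans ?_
  rw [Int.natAbs_mul, Int.natAbs_mul, Int.natAbs_natCast, add_mul, add_comm]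
  exact Nat.add_le_add (Nat.mul_le_mul_left _ (le_max_right _ _))
    (Nat.mul_le_mul_left _ (le_max_left _ _))

/-- the determinant of the coordinates -/
def crs (π ρ : Option ℚ) : ℤ := (pt ρ).1 * (pt π).2 - (pt π).1 * (pt ρ).2

theorem crs_ne {π ρ : Option ℚ} (h : π ≠ ρ) : crs π ρ ≠ 0 := by
  intro h1
  apply h
  cases π with
  | none =>
    cases ρ with
    | none => rfl
    | some r =>
      have h2 := r.den_nz
      simp [crs, pt] at h1
  | some s =>
    cases ρ with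
    | none =>
      simp [crs, pt] at h1
    | some r =>
      have h2 : r.num * (s.den : ℤ) = s.num * (r.den : ℤ) := sub_eq_zero.1 h1
      rw [((Rat.eq_iff_mul_eq_mul).2 h2).symm]

theorem elp_ne {π : Option ℚ} {x : ℚ} (h : π ≠ some x) : elp π x ≠ 0 := by
  intro h0
  apply crs_ne h
  unfold crs pt
  unfold elp pt at h0
  cases π with
  | none => simpa using h0
  | some r => linarith

theorem ht_le {π ρ : Option ℚ} (h : π ≠ ρ) (x : ℚ) :
    ht x ≤ (sz π + sz ρ) * ((elp π x).natAbs + (elp ρ x).natAbs) := by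
  have hc := crs_ne h
  have hc1 : 1 ≤ (crs π ρ).natAbs := Nat.one_le_iff_ne_zero.2 (Int.natAbs_ne_zero.2 hc)
  have e1 : crs π ρ * x.num = (pt ρ).1 * elp π x - (pt π).1 * elp ρ x := by
    unfold elp crs; ring
  have e2 : crs π ρ * (x.den : ℤ) = (pt ρ).2 * elp π x - (pt π).2 * elp ρ x := by
    unfold elp crs; ring
  have b1 : x.num.natAbs ≤
      (pt ρ).1.natAbs * (elp π x).natAbs + (pt π).1.natAbs * (elp ρ x).natAbs := by
    calc x.num.natAbs ≤ (crs π ρ).natAbs * x.num.natAbs := Nat.le_mul_of_pos_left _ hc1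
      _ = ((pt ρ).1 * elp π x - (pt π).1 * elp ρ x).natAbs := by rw [← Int.natAbs_mul, e1]
      _ ≤ _ := by
          refine (Int.natAbs_sub_le _ _).trans ?_
          rw [Int.natAbs_mul, Int.natAbs_mul]
  have b2 : x.den ≤ (pt ρ).2.natAbs * (elp π x).natAbs + (pt π).2.natAbs * (elp ρ x).natAbs := by
    calc x.den ≤ (crs π ρ).natAbs * x.den := Nat.le_mul_of_pos_left _ hc1
      _ = ((pt ρ).2 * elp π x - (pt π).2 * elp ρ x).natAbs := by
          rw [← e2, Int.natAbs_mul, Int.natAbs_natCast]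
      _ ≤ _ := by
          refine (Int.natAbs_sub_le _ _).trans ?_
          rw [Int.natAbs_mul, Int.natAbs_mul]
  unfold ht
  have s1 : (pt ρ).1.natAbs ≤ sz π + sz ρ := by unfold sz; omega
  have s2 : (pt ρ).2.natAbs ≤ sz π + sz ρ := by unfold sz; omega
  have s3 : (pt π).1.natAbs ≤ sz π + sz ρ := by unfold sz; omega
  have s4 : (pt π).2.natAbs ≤ sz π + sz ρ := by unfold sz; omega
  refine max_le (b1.trans ?_) (b2.trans ?_)
  · rw [mul_add]
    exact Nat.add_le_add (Nat.mul_le_mul_right _ s1) (Nat.mul_le_mul_right _ s3)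
  · rw [mul_add]
    exact Nat.add_le_add (Nat.mul_le_mul_right _ s2) (Nat.mul_le_mul_right _ s4)

/-- proportional values of the two linear forms -/
theorem ht_le_of_eq {π ρ : Option ℚ} (h : π ≠ ρ) (x : ℚ) {t1 t2 : ℤ} (ht1 : t1 ≠ 0)
    (heq : t2 * elp π x = t1 * elp ρ x) : ht x ≤ (t1.natAbs + t2.natAbs) * (sz π + sz ρ) := by
  obtain ⟨a, ha⟩ : ∃ a : ℤ, a = (pt π).1 := ⟨_, rfl⟩
  obtain ⟨b, hb⟩ : ∃ b : ℤ, b = (pt π).2 := ⟨_, rfl⟩
  obtain ⟨a', ha'⟩ : ∃ a' : ℤ, a' = (pt ρ).1 := ⟨_, rfl⟩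
  obtain ⟨b', hb'⟩ : ∃ b' : ℤ, b' = (pt ρ).2 := ⟨_, rfl⟩
  obtain ⟨P, hP⟩ : ∃ P : ℤ, P = t2 * b - t1 * b' := ⟨_, rfl⟩
  obtain ⟨Q, hQ⟩ : ∃ Q : ℤ, Q = t2 * a - t1 * a' := ⟨_, rfl⟩
  have hPQ : P * x.num = Q * (x.den : ℤ) := by
    unfold elp at heq
    rw [← ha, ← hb, ← ha', ← hb'] at heq
    rw [hP, hQ]
    linear_combination heq
  have hxd : (x.den : ℤ) ≠ 0 := by exact_mod_cast x.den_nz
  have hP0 : P ≠ 0 := by
    intro h0
    rw [h0, zero_mul] at hPQ
    have hQ0 : Q = 0 := by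
      rcases mul_eq_zero.1 hPQ.symm with h1 | h1
      · exact h1
      · exact absurd h1 hxd
    apply crs_ne h
    have h1 : t1 * (a' * b - a * b') = 0 := by
      have e1 : t1 * a' = t2 * a := by linarith [hQ, hQ0]
      have e2 : t1 * b' = t2 * b := by linarith [hP, h0]
      linear_combination b * e1 - a * e2
    unfold crs
    rw [← ha, ← hb, ← ha', ← hb']
    rcases mul_eq_zero.1 h1 with h2 | h2
    · exact absurd h2 ht1
    · exact h2
  have hcx : IsCoprime x.num (x.den : ℤ) := by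
    rw [Int.isCoprime_iff_gcd_eq_one]
    exact x.reduced
  have hdP : (x.den : ℤ) ∣ P := by
    have h1 : (x.den : ℤ) ∣ P * x.num := by rw [hPQ]; exact dvd_mul_left _ _
    exact hcx.symm.dvd_of_dvd_mul_right h1
  obtain ⟨k, hk⟩ := hdP
  have hQk : Q = k * x.num := by
    have h1 : (x.den : ℤ) * (k * x.num) = (x.den : ℤ) * Q := by
      rw [hk] at hPQ
      linear_combination hPQ
    exact (mul_left_cancel₀ hxd h1).symm
  have hk1 : 1 ≤ k.natAbs := by
    refine Nat.one_le_iff_ne_zero.2 (Int.natAbs_ne_zero.2 ?_)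
    rintro rfl
    rw [mul_zero] at hk
    exact hP0 hk
  have b1 : x.den ≤ P.natAbs := by
    rw [hk, Int.natAbs_mul, Int.natAbs_natCast]
    exact Nat.le_mul_of_pos_right _ hk1
  have b2 : x.num.natAbs ≤ Q.natAbs := by
    rw [hQk, Int.natAbs_mul]
    exact Nat.le_mul_of_pos_left _ hk1
  have b3 : P.natAbs ≤ t2.natAbs * b.natAbs + t1.natAbs * b'.natAbs := by
    rw [hP]
    refine (Int.natAbs_sub_le _ _).trans ?_
    rw [Int.natAbs_mul, Int.natAbs_mul]
  have b4 : Q.natAbs ≤ t2.natAbs * a.natAbs + t1.natAbs * a'.natAbs := by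
    rw [hQ]
    refine (Int.natAbs_sub_le _ _).trans ?_
    rw [Int.natAbs_mul, Int.natAbs_mul]
  unfold ht
  have s1 : b.natAbs ≤ sz π + sz ρ := by rw [hb]; unfold sz; omega
  have s2 : b'.natAbs ≤ sz π + sz ρ := by rw [hb']; unfold sz; omega
  have s3 : a.natAbs ≤ sz π + sz ρ := by rw [ha]; unfold sz; omega
  have s4 : a'.natAbs ≤ sz π + sz ρ := by rw [ha']; unfold sz; omega
  refine max_le (b2.trans (b4.trans ?_)) (b1.trans (b3.trans ?_))
  · rw [add_mul, add_comm]
    exact Nat.add_le_add (Nat.mul_le_mul_left _ s4) (Nat.mul_le_mul_left _ s3)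
  · rw [add_mul, add_comm]
    exact Nat.add_le_add (Nat.mul_le_mul_left _ s2) (Nat.mul_le_mul_left _ s1)

/-- **The height is bounded.** -/
theorem core (F G : ℚ[X]) (hcop : IsCoprime F G) (hG : G ≠ 0) (π ρ : Option ℚ) (hπρ : π ≠ ρ)
    (hπ : IsPole F G π) (hρ : IsPole F G ρ) (t1 t2 : ℕ) (ht1 : 1 ≤ t1) (ht2 : 1 ≤ t2)
    (δ C : ℝ) (hδ : 0 < δ) (hC : 0 ≤ C) (B0 : ℕ) :
    ∃ N B : ℕ, ∀ x : ℚ, G.eval x ≠ 0 →
      (B0 ≤ ht x → |Real.log |(elp π x : ℝ)| - Real.log |(elp ρ x : ℝ)| -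
        (Real.log t1 - Real.log t2)| ≤ C * (ht x : ℝ) ^ (-δ)) →
      ∀ n : ℕ, N ≤ n → Dv n (F.eval x / G.eval x) → ht x ≤ B := by
  classical
  obtain ⟨m1, H1, hm1, hp1⟩ := pole_log F G hcop hG π hπ
  obtain ⟨m2, H2, hm2, hp2⟩ := pole_log F G hcop hG ρ hρ
  have hm1r : (1:ℝ) ≤ m1 := by exact_mod_cast hm1
  have hm2r : (1:ℝ) ≤ m2 := by exact_mod_cast hm2
  have hlt1 : 0 ≤ Real.log t1 := Real.log_natCast_nonneg _
  have hlt2 : 0 ≤ Real.log t2 := Real.log_natCast_nonneg _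
  obtain ⟨H, hHdef⟩ : ∃ H : ℕ,
    H = ⌈(m2 : ℝ) * H1 + m1 * H2 + m1 * m2 * (Real.log t1 + Real.log t2)⌉₊ := ⟨_, rfl⟩
  have hHge : (m2 : ℝ) * H1 + m1 * H2 + m1 * m2 * (Real.log t1 + Real.log t2) ≤ H := by
    rw [hHdef]; exact Nat.le_ceil _
  have hmm : (0:ℝ) < m1 * m2 := by positivity
  obtain ⟨δ', hδ'⟩ : ∃ δ' : ℝ, δ' = δ / (2 * (m1 * m2)) := ⟨_, rfl⟩
  have hδ'0 : 0 < δ' := by rw [hδ']; positivity
  obtain ⟨N, hN1, hN⟩ := near H δ' hδ'0
  obtain ⟨c0, hc0⟩ : ∃ c0 : ℕ, c0 = sz π + sz ρ := ⟨_, rfl⟩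
  have hc01 : 1 ≤ c0 := by rw [hc0]; exact (one_le_sz π).trans (Nat.le_add_right _ _)
  have hc0r : (1:ℝ) ≤ c0 := by exact_mod_cast hc01
  have hlc0 : 0 ≤ Real.log c0 := Real.log_natCast_nonneg _
  obtain ⟨C2, hC2⟩ : ∃ C2 : ℝ,
    C2 = m1 * m2 * C * Real.exp (δ' * (m1 * m2 * Real.log c0 + H)) := ⟨_, rfl⟩
  obtain ⟨B1, hB1⟩ : ∃ B1 : ℕ, (max C2 1) ^ (2 / δ) ≤ B1 := exists_nat_ge _
  obtain ⟨B2, hB2⟩ : ∃ B2 : ℕ, c0 * (Real.exp H1 + Real.exp H2) ≤ B2 := exists_nat_ge _
  refine ⟨N, max B0 (max B1 (max B2 ((t1 + t2) * c0))), fun x hx hnear n hn hDv => ?_⟩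
  obtain ⟨u1, v1, y1, hu1, hv1, hy1, hu1H, hv1H, e1⟩ := hp1 x hx n hDv
  obtain ⟨u2, v2, y2, hu2, hv2, hy2, hu2H, hv2H, e2⟩ := hp2 x hx n hDv
  by_cases hB0 : B0 ≤ ht x
  swap
  · rw [not_le] at hB0
    exact hB0.le.trans (le_max_left _ _)
  have hD := hnear hB0
  obtain ⟨D, hDdef⟩ : ∃ D : ℝ, D = Real.log |(elp π x : ℝ)| - Real.log |(elp ρ x : ℝ)| -
        (Real.log t1 - Real.log t2) := ⟨_, rfl⟩
  rw [← hDdef] at hD
  have hxπ : π ≠ some x := by rintro rfl; exact hx hπ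
  have hxρ : ρ ≠ some x := by rintro rfl; exact hx hρ
  have hlπ : elp π x ≠ 0 := elp_ne hxπ
  have hlρ : elp ρ x ≠ 0 := elp_ne hxρ
  have hh1 : 1 ≤ ht x := one_le_ht x
  have hh1r : (1:ℝ) ≤ ht x := by exact_mod_cast hh1
  have hlogh : 0 ≤ Real.log (ht x) := Real.log_natCast_nonneg _
  have labs : ∀ σ : Option ℚ, σ = π ∨ σ = ρ → Real.log |(elp σ x : ℝ)| ≤ Real.log c0 + Real.log (ht x) := by
    intro σ hσ
    have h1 : (elp σ x).natAbs ≤ c0 * ht x := by
      refine (elp_le σ x).trans (Nat.mul_le_mul_right _ ?_)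
      rw [hc0]
      rcases hσ with rfl | rfl <;> omega
    have h0 : elp σ x ≠ 0 := by rcases hσ with rfl | rfl <;> assumption
    have h2 : |(elp σ x : ℝ)| = (((elp σ x).natAbs : ℕ) : ℝ) := by
      rw [Nat.cast_natAbs, Int.cast_abs]
    rw [h2, ← Real.log_mul (by positivity) (by positivity)]
    apply Real.log_le_log
    · have : 0 < (elp σ x).natAbs := Int.natAbs_pos.2 h0
      exact_mod_cast this
    · exact_mod_cast h1
  have ln0 : ∀ k : ℕ, 0 ≤ Real.log k := fun k => Real.log_natCast_nonneg _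
  -- the combined quantities
  obtain ⟨y, hy⟩ : ∃ y : ℕ, y = y1 ^ m2 := ⟨_, rfl⟩
  obtain ⟨z, hz⟩ : ∃ z : ℕ, z = y2 ^ m1 := ⟨_, rfl⟩
  obtain ⟨u, hu⟩ : ∃ u : ℕ, u = u1 ^ m2 * v2 ^ m1 * t2 ^ (m1 * m2) := ⟨_, rfl⟩
  obtain ⟨v, hv⟩ : ∃ v : ℕ, v = v1 ^ m2 * u2 ^ m1 * t1 ^ (m1 * m2) := ⟨_, rfl⟩
  have p1 : (0:ℝ) < u1 := by exact_mod_cast hu1
  have p2 : (0:ℝ) < v1 := by exact_mod_cast hv1
  have p3 : (0:ℝ) < u2 := by exact_mod_cast hu2
  have p4 : (0:ℝ) < v2 := by exact_mod_cast hv2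
  have p5 : (0:ℝ) < y1 := by exact_mod_cast hy1
  have p6 : (0:ℝ) < y2 := by exact_mod_cast hy2
  have p7 : (0:ℝ) < t1 := by exact_mod_cast ht1
  have p8 : (0:ℝ) < t2 := by exact_mod_cast ht2
  have ly : Real.log y = m2 * Real.log y1 := by rw [hy]; push_cast; exact Real.log_pow _ _
  have lz : Real.log z = m1 * Real.log y2 := by rw [hz]; push_cast; exact Real.log_pow _ _
  have lu : Real.log u = m2 * Real.log u1 + m1 * Real.log v2 + m1 * m2 * Real.log t2 := by
    rw [hu]; push_cast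
    rw [Real.log_mul (by positivity) (by positivity), Real.log_mul (by positivity) (by positivity),
      Real.log_pow, Real.log_pow, Real.log_pow]
    push_cast; ring
  have lv : Real.log v = m2 * Real.log v1 + m1 * Real.log u2 + m1 * m2 * Real.log t1 := by
    rw [hv]; push_cast
    rw [Real.log_mul (by positivity) (by positivity), Real.log_mul (by positivity) (by positivity),
      Real.log_pow, Real.log_pow, Real.log_pow]
    push_cast; ring
  have hy' : 1 ≤ y := by rw [hy]; exact Nat.one_le_pow _ _ hy1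
  have hz' : 1 ≤ z := by rw [hz]; exact Nat.one_le_pow _ _ hy2
  have hu' : 1 ≤ u := by
    rw [hu]
    exact Nat.mul_pos (Nat.mul_pos (Nat.pow_pos hu1) (Nat.pow_pos hv2)) (Nat.pow_pos ht2)
  have hv' : 1 ≤ v := by
    rw [hv]
    exact Nat.mul_pos (Nat.mul_pos (Nat.pow_pos hv1) (Nat.pow_pos hu2)) (Nat.pow_pos ht1)
  have hy0 : (0:ℝ) < y := by exact_mod_cast hy'
  have hz0 : (0:ℝ) < z := by exact_mod_cast hz'
  have hu0 : (0:ℝ) < u := by exact_mod_cast hu'
  have hv0 : (0:ℝ) < v := by exact_mod_cast hv'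
  have hmmt : (0:ℝ) ≤ m1 * m2 * Real.log t1 := by positivity
  have hmmt2 : (0:ℝ) ≤ m1 * m2 * Real.log t2 := by positivity
  have huH : Real.log u ≤ H := by
    rw [lu]
    have q1 : (m2:ℝ) * Real.log u1 ≤ m2 * H1 := by gcongr
    have q2 : (m1:ℝ) * Real.log v2 ≤ m1 * H2 := by gcongr
    nlinarith
  have hvH : Real.log v ≤ H := by
    rw [lv]
    have q1 : (m2:ℝ) * Real.log v1 ≤ m2 * H1 := by gcongr
    have q2 : (m1:ℝ) * Real.log u2 ≤ m1 * H2 := by gcongr
    nlinarith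
  have hrel : Real.log ((u:ℝ) / v) + n * Real.log ((y:ℝ) / z) = m1 * m2 * D := by
    rw [Real.log_div hu0.ne' hv0.ne', Real.log_div hy0.ne' hz0.ne', lu, lv, ly, lz, hDdef]
    linear_combination -(m2 : ℝ) * e1 + (m1 : ℝ) * e2
  by_cases hbig : 2 ≤ max y z
  · by_cases hne : u ≠ v ∨ y ≠ z
    · -- the main case
      have key := hN n hn u v hu' hv' huH hvH y z hy' hz' hbig hne
      rw [hrel, abs_mul, abs_of_pos hmm] at key
      have hmax : n * Real.log (max y z : ℕ) ≤ m1 * m2 * (Real.log c0 + Real.log (ht x)) + H := by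
        have q1 : n * Real.log y ≤ m1 * m2 * (Real.log c0 + Real.log (ht x)) + H := by
          have l1 := labs π (Or.inl rfl)
          have r1 : (n:ℝ) * Real.log y1 ≤ m1 * (Real.log c0 + Real.log (ht x)) + H1 := by
            have r2 : (m1:ℝ) * Real.log |(elp π x : ℝ)| ≤ m1 * (Real.log c0 + Real.log (ht x)) := by
              gcongr
            linarith [ln0 u1]
          have r3 : (m2:ℝ) * (n * Real.log y1) ≤
              m2 * (m1 * (Real.log c0 + Real.log (ht x)) + H1) := by gcongr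
          have r4 : (0:ℝ) ≤ m1 * H2 := by positivity
          rw [ly]
          nlinarith
        have q2 : n * Real.log z ≤ m1 * m2 * (Real.log c0 + Real.log (ht x)) + H := by
          have l1 := labs ρ (Or.inr rfl)
          have r1 : (n:ℝ) * Real.log y2 ≤ m2 * (Real.log c0 + Real.log (ht x)) + H2 := by
            have r2 : (m2:ℝ) * Real.log |(elp ρ x : ℝ)| ≤ m2 * (Real.log c0 + Real.log (ht x)) := by
              gcongr
            linarith [ln0 u2]
          have r3 : (m1:ℝ) * (n * Real.log y2) ≤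
              m1 * (m2 * (Real.log c0 + Real.log (ht x)) + H2) := by gcongr
          have r4 : (0:ℝ) ≤ m2 * H1 := by positivity
          rw [lz]
          nlinarith
        rcases max_cases y z with h | h
        · rw [h.1]; exact q1
        · rw [h.1]; exact q2
      have h3 : Real.exp (-(δ' * (m1 * m2 * (Real.log c0 + Real.log (ht x)) + H))) ≤
          m1 * m2 * (C * (ht x : ℝ) ^ (-δ)) := by
        refine le_trans (Real.exp_le_exp.2 ?_) (key.trans (by gcongr))
        rw [neg_le_neg_iff, mul_assoc]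
        gcongr
      have hhpos : (0:ℝ) < ht x := by linarith
      have h4 : Real.exp (-(δ' * (m1 * m2 * (Real.log c0 + Real.log (ht x)) + H))) =
          (ht x : ℝ) ^ (-(δ / 2)) * Real.exp (-(δ' * (m1 * m2 * Real.log c0 + H))) := by
        rw [Real.rpow_def_of_pos hhpos, ← Real.exp_add]
        congr 1
        have h5 : δ' * (m1 * m2) = δ / 2 := by
          rw [hδ']; field_simp
        linear_combination (-Real.log (ht x)) * h5
      rw [h4] at h3
      have h5 : (ht x : ℝ) ^ (δ / 2) ≤ C2 := by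
        have h6 : (ht x : ℝ) ^ (-δ) = (ht x : ℝ) ^ (-(δ / 2)) * (ht x : ℝ) ^ (-(δ / 2)) := by
          rw [← Real.rpow_add hhpos]; congr 1; ring
        rw [h6] at h3
        have h7 : 0 < (ht x : ℝ) ^ (-(δ / 2)) := Real.rpow_pos_of_pos hhpos _
        have h8 : Real.exp (-(δ' * (m1 * m2 * Real.log c0 + H))) ≤
            m1 * m2 * C * (ht x : ℝ) ^ (-(δ / 2)) := by
          have h9 : (ht x : ℝ) ^ (-(δ / 2)) * Real.exp (-(δ' * (m1 * m2 * Real.log c0 + H))) ≤
              (ht x : ℝ) ^ (-(δ / 2)) * (m1 * m2 * C * (ht x : ℝ) ^ (-(δ / 2))) := by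
            calc _ ≤ _ := h3
              _ = _ := by ring
          exact le_of_mul_le_mul_left h9 h7
        have h10 : (ht x : ℝ) ^ (δ / 2) * (ht x : ℝ) ^ (-(δ / 2)) = 1 := by
          rw [← Real.rpow_add hhpos, add_neg_cancel, Real.rpow_zero]
        have h11 : Real.exp (δ' * (m1 * m2 * Real.log c0 + H)) *
            Real.exp (-(δ' * (m1 * m2 * Real.log c0 + H))) = 1 := by
          rw [← Real.exp_add, add_neg_cancel, Real.exp_zero]
        have h12 : 0 < Real.exp (δ' * (m1 * m2 * Real.log c0 + H)) := Real.exp_pos _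
        have h13 : 0 < (ht x : ℝ) ^ (δ / 2) := Real.rpow_pos_of_pos hhpos _
        calc (ht x : ℝ) ^ (δ / 2)
            = (ht x : ℝ) ^ (δ / 2) * (Real.exp (δ' * (m1 * m2 * Real.log c0 + H)) *
              Real.exp (-(δ' * (m1 * m2 * Real.log c0 + H)))) := by rw [h11, mul_one]
          _ = ((ht x : ℝ) ^ (δ / 2) * Real.exp (δ' * (m1 * m2 * Real.log c0 + H))) *
              Real.exp (-(δ' * (m1 * m2 * Real.log c0 + H))) := by ring
          _ ≤ ((ht x : ℝ) ^ (δ / 2) * Real.exp (δ' * (m1 * m2 * Real.log c0 + H))) *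
              (m1 * m2 * C * (ht x : ℝ) ^ (-(δ / 2))) := by gcongr
          _ = (m1 * m2 * C * Real.exp (δ' * (m1 * m2 * Real.log c0 + H))) *
              ((ht x : ℝ) ^ (δ / 2) * (ht x : ℝ) ^ (-(δ / 2))) := by ring
          _ = C2 := by rw [h10, mul_one, hC2]
      have h6 : (ht x : ℝ) ≤ B1 := by
        refine le_trans ?_ hB1
        have h7 : (ht x : ℝ) = ((ht x : ℝ) ^ (δ / 2)) ^ (2 / δ) := by
          rw [← Real.rpow_mul hhpos.le]
          have : δ / 2 * (2 / δ) = 1 := by field_simp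
          rw [this, Real.rpow_one]
        rw [h7]
        apply Real.rpow_le_rpow (by positivity) (h5.trans (le_max_left _ _)) (by positivity)
      have h7 : ht x ≤ B1 := by exact_mod_cast h6
      exact h7.trans ((le_max_left _ _).trans (le_max_right _ _))
    · -- equality
      rw [not_or, not_not, not_not] at hne
      obtain ⟨h1, h2⟩ := hne
      rw [h1, h2, div_self hv0.ne', div_self hz0.ne', Real.log_one, mul_zero, add_zero] at hrel
      have hD0 : D = 0 := by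
        rcases mul_eq_zero.1 hrel.symm with h3 | h3
        · exact absurd h3 hmm.ne'
        · exact h3
      have a1 : 0 < |(elp π x : ℝ)| := abs_pos.2 (by exact_mod_cast hlπ)
      have a2 : 0 < |(elp ρ x : ℝ)| := abs_pos.2 (by exact_mod_cast hlρ)
      have h3 : Real.log (t2 * |(elp π x : ℝ)|) = Real.log (t1 * |(elp ρ x : ℝ)|) := by
        rw [Real.log_mul p8.ne' a1.ne', Real.log_mul p7.ne' a2.ne']
        linarith
      have h4 : (t2 : ℝ) * |(elp π x : ℝ)| = t1 * |(elp ρ x : ℝ)| :=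
        Real.log_injOn_pos (Set.mem_Ioi.2 (by positivity)) (Set.mem_Ioi.2 (by positivity)) h3
      have h5 : |((t2 : ℤ) * elp π x)| = |((t1 : ℤ) * elp ρ x)| := by
        rw [abs_mul, abs_mul, Nat.abs_cast, Nat.abs_cast]
        exact_mod_cast h4
      have h6 : ht x ≤ (t1 + t2) * c0 := by
        have hz1 : (t1 : ℤ) ≠ 0 := by exact_mod_cast (by omega : t1 ≠ 0)
        rcases abs_eq_abs.1 h5 with h7 | h7
        · have := ht_le_of_eq hπρ x hz1 h7
          rwa [Int.natAbs_natCast, Int.natAbs_natCast, ← hc0] at this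
        · have := ht_le_of_eq hπρ x (neg_ne_zero.2 hz1) (by rw [h7]; ring : (t2 : ℤ) * elp π x =
            (-(t1 : ℤ)) * elp ρ x)
          rwa [Int.natAbs_neg, Int.natAbs_natCast, Int.natAbs_natCast, ← hc0] at this
      exact h6.trans ((le_max_right _ _).trans ((le_max_right _ _).trans (le_max_right _ _)))
  · -- small values
    rw [not_le] at hbig
    have hy1' : y = 1 := by
      have := le_max_left y z
      omega
    have hz1' : z = 1 := by
      have := le_max_right y z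
      omega
    have l1 : Real.log y1 = 0 := by
      rw [hy1', Nat.cast_one, Real.log_one] at ly
      rcases mul_eq_zero.1 ly.symm with h | h
      · linarith
      · exact h
    have l2 : Real.log y2 = 0 := by
      rw [hz1', Nat.cast_one, Real.log_one] at lz
      rcases mul_eq_zero.1 lz.symm with h | h
      · linarith
      · exact h
    rw [l1, mul_zero, zero_add] at e1
    rw [l2, mul_zero, zero_add] at e2
    have small : ∀ (σ : Option ℚ) (m H' : ℕ), 1 ≤ m → elp σ x ≠ 0 →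
        (m:ℝ) * Real.log |(elp σ x : ℝ)| ≤ H' → (((elp σ x).natAbs : ℕ) : ℝ) ≤ Real.exp H' := by
      intro σ m H' hm h0 h1
      have h2 : |(elp σ x : ℝ)| = (((elp σ x).natAbs : ℕ) : ℝ) := by
        rw [Nat.cast_natAbs, Int.cast_abs]
      rw [h2] at h1
      have hpos : 1 ≤ (elp σ x).natAbs := Int.natAbs_pos.2 h0
      have hposr : (0:ℝ) < (((elp σ x).natAbs : ℕ) : ℝ) := by exact_mod_cast hpos
      have h3 : 0 ≤ Real.log (((elp σ x).natAbs : ℕ) : ℝ) := Real.log_natCast_nonneg _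
      have hmr : (1:ℝ) ≤ m := by exact_mod_cast hm
      have h4 : Real.log (((elp σ x).natAbs : ℕ) : ℝ) ≤ H' := by nlinarith
      exact (Real.log_le_iff_le_exp hposr).1 h4
    have s1 := small π m1 H1 hm1 hlπ (by linarith [ln0 v1])
    have s2 := small ρ m2 H2 hm2 hlρ (by linarith [ln0 v2])
    have h1 := ht_le hπρ x
    rw [← hc0] at h1
    have h2 : (ht x : ℝ) ≤ B2 := by
      refine le_trans ?_ hB2
      have h3 : (ht x : ℝ) ≤ c0 * ((((elp π x).natAbs : ℕ) : ℝ) + (((elp ρ x).natAbs : ℕ) : ℝ)) := by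
        exact_mod_cast h1
      refine h3.trans ?_
      gcongr
    have h3 : ht x ≤ B2 := by exact_mod_cast h2
    exact h3.trans ((le_max_left _ _).trans ((le_max_right _ _).trans (le_max_right _ _)))

/-- the numbers of bounded height -/
theorem finite_ht (B : ℕ) : {x : ℚ | ht x ≤ B}.Finite := by
  have h1 : {x : ℚ | ht x ≤ B} ⊆
      (fun p : ℤ × ℕ => (p.1 : ℚ) / p.2) '' (Set.Icc (-(B : ℤ)) B ×ˢ Set.Iic B) := by
    intro x hx
    have hx' : max x.num.natAbs x.den ≤ B := hx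
    refine ⟨(x.num, x.den), ⟨?_, (le_max_right _ _).trans hx'⟩, Rat.num_div_den x⟩
    have h2 : x.num.natAbs ≤ B := (le_max_left _ _).trans hx'
    have h3 : |x.num| ≤ B := by rw [Int.abs_eq_natAbs]; exact_mod_cast h2
    exact abs_le.1 h3
  exact (((Set.finite_Icc _ _).prod (Set.finite_Iic _)).image _).subset h1

/-- **The value is an integer.** -/
theorem integral (F G : ℚ[X]) (hcop : IsCoprime F G) (hG : G ≠ 0) (π ρ : Option ℚ) (hπρ : π ≠ ρ)
    (hπ : IsPole F G π) (hρ : IsPole F G ρ) (t1 t2 : ℕ) (ht1 : 1 ≤ t1) (ht2 : 1 ≤ t2)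
    (δ C : ℝ) (hδ : 0 < δ) (hC : 0 ≤ C) (B0 : ℕ) :
    ∃ N : ℕ, ∀ x : ℚ, G.eval x ≠ 0 →
      (B0 ≤ ht x → |Real.log |(elp π x : ℝ)| - Real.log |(elp ρ x : ℝ)| -
        (Real.log t1 - Real.log t2)| ≤ C * (ht x : ℝ) ^ (-δ)) →
      ∀ n : ℕ, N ≤ n → Dv n (F.eval x / G.eval x) →
        ∀ q : ℕ, q.Prime → 0 ≤ padicValRat q (F.eval x / G.eval x) := by
  classical
  obtain ⟨N, B, h⟩ := core F G hcop hG π ρ hπρ hπ hρ t1 t2 ht1 ht2 δ C hδ hC B0
  obtain ⟨T, hT⟩ := (finite_ht B).exists_finset_coe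
  refine ⟨max N (∑ x ∈ T, (F.eval x / G.eval x).den + 1), fun x hx hnear n hn hDv q hq => ?_⟩
  have hxB := h x hx hnear n ((le_max_left _ _).trans hn) hDv
  have hxT : x ∈ T := by
    have : x ∈ (T : Set ℚ) := by rw [hT]; exact hxB
    exact_mod_cast this
  by_contra hneg
  rw [not_le] at hneg
  have : Fact q.Prime := ⟨hq⟩
  have hdvd := hDv q hq hneg
  obtain ⟨r, hr⟩ : ∃ r : ℚ, r = F.eval x / G.eval x := ⟨_, rfl⟩
  rw [← hr] at hneg hdvd
  have h1 : (n : ℤ) ≤ |padicValRat q r| := Int.le_of_dvd (abs_pos.2 hneg.ne) ((dvd_abs _ _).2 hdvd)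
  have h2 : |padicValRat q r| ≤ r.den := by
    rw [abs_of_neg hneg]
    have h3 : padicValRat q r = (padicValInt q r.num : ℤ) - padicValNat q r.den := rfl
    have h4 : padicValNat q r.den < r.den := by
      have := Nat.factorization_lt (n := r.den) q r.den_nz
      rwa [Nat.factorization_def _ hq] at this
    have h5 : (0:ℤ) ≤ padicValInt q r.num := Nat.cast_nonneg _
    have h6 : (padicValNat q r.den : ℤ) < r.den := by exact_mod_cast h4
    linarith
  have h3 : r.den ≤ ∑ x ∈ T, (F.eval x / G.eval x).den := by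
    rw [hr]
    exact Finset.single_le_sum (f := fun x => (F.eval x / G.eval x).den)
      (fun _ _ => Nat.zero_le _) hxT
  have h4 : ∑ x ∈ T, (F.eval x / G.eval x).den + 1 ≤ n := (le_max_right _ _).trans hn
  have h5 : (n : ℤ) ≤ r.den := h1.trans h2
  have h6 : n ≤ r.den := by exact_mod_cast h5
  omega

end Pool.Agent.U964.LF
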