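import Mathlib
import Pool.Agent.U964.LF.Unif

/-!
Rational numbers near a rational point of the projective line: if all pole orders of the value of a
rational function with two other rational poles are divisible by a large integer, then the value is
an integer.
-/

set_option autoImplicit false

namespace Pool.Agent.U964.LF

open Polynomial Finset

/-- `x` is near `τ`: `|x - τ| ≤ H(x) ^ (-δ)`, or `|x| ≥ H(x) ^ δ` if `τ` is the point at infinity -/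
def IsNear : Option ℚ → ℝ → ℚ → Prop
  | none, δ, x => (ht x : ℝ) ^ δ ≤ |(x : ℝ)|
  | some t, δ, x => |(x : ℝ) - t| ≤ (ht x : ℝ) ^ (-δ)

theorem ell_eq_real (t x : ℚ) : ((elp (some t) x : ℤ) : ℝ) = (t.den : ℝ) * (x.den : ℝ) * ((x : ℝ) - t) := by
  have h := ell_eq t x
  have h2 : (((ell t x : ℤ) : ℚ) : ℝ) = (((t.den : ℚ) * (x.den : ℚ) * (x - t) : ℚ) : ℝ) := by
    rw [h]
  push_cast at h2
  rw [elp_some]
  exact h2

theorem near_elp {τ : Option ℚ} {δ : ℝ} {x : ℚ} (h : IsNear τ δ x) :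
    |(elp τ x : ℝ)| ≤ (sz τ : ℝ) * (ht x : ℝ) ^ (1 - δ) := by
  have hh1 : (1:ℝ) ≤ ht x := by exact_mod_cast one_le_ht x
  have hh0 : (0:ℝ) < ht x := by linarith
  have hd : (x.den : ℝ) ≤ ht x := by exact_mod_cast le_max_right x.num.natAbs x.den
  have hn : |(x.num : ℝ)| ≤ ht x := by
    have : ((x.num.natAbs : ℕ) : ℝ) ≤ ht x := by exact_mod_cast le_max_left x.num.natAbs x.den
    rwa [Nat.cast_natAbs, Int.cast_abs] at this
  have hxd : (0:ℝ) < x.den := by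
    have := x.den_pos
    exact_mod_cast this
  cases τ with
  | some t =>
    have h' : |(x : ℝ) - t| ≤ (ht x : ℝ) ^ (-δ) := h
    rw [ell_eq_real, abs_mul, abs_mul, Nat.abs_cast, Nat.abs_cast]
    have h1 : (t.den : ℝ) ≤ sz (some t) := by
      have : t.den ≤ sz (some t) := by
        unfold sz pt
        simp only [Int.natAbs_natCast]
        omega
      exact_mod_cast this
    have h2 : (ht x : ℝ) ^ (1 - δ) = ht x * (ht x : ℝ) ^ (-δ) := by
      rw [sub_eq_add_neg, Real.rpow_add hh0, Real.rpow_one]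
    rw [h2]
    calc (t.den : ℝ) * x.den * |(x : ℝ) - t|
        ≤ (sz (some t) : ℝ) * ht x * (ht x : ℝ) ^ (-δ) := by gcongr
      _ = _ := by ring
  | none =>
    have h' : (ht x : ℝ) ^ δ ≤ |(x : ℝ)| := h
    rw [elp_none]
    push_cast
    rw [abs_neg, Nat.abs_cast]
    have h1 : (sz none : ℝ) = 1 := by simp [sz, pt]
    rw [h1, one_mul]
    have h2 : |(x : ℝ)| * x.den = |(x.num : ℝ)| := by
      have h3 : ((x * x.den : ℚ) : ℝ) = ((x.num : ℚ) : ℝ) := by rw [Rat.mul_den_eq_num]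
      push_cast at h3
      rw [← h3, abs_mul, Nat.abs_cast]
    have h3 : (ht x : ℝ) ^ δ * x.den ≤ ht x := by
      calc (ht x : ℝ) ^ δ * x.den ≤ |(x : ℝ)| * x.den := by gcongr
        _ ≤ ht x := by rw [h2]; exact hn
    have h4 : (ht x : ℝ) ^ (1 - δ) = ht x / (ht x : ℝ) ^ δ := by
      rw [Real.rpow_sub hh0, Real.rpow_one]
    rw [h4, le_div_iff₀ (Real.rpow_pos_of_pos hh0 _)]
    linarith

theorem log_one_add {w : ℝ} (hw : |w| ≤ 1 / 2) : |Real.log (1 + w)| ≤ 2 * |w| := by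
  have h1 : -(1 / 2) ≤ w := (abs_le.1 hw).1
  have hpos : 0 < 1 + w := by linarith
  have h2 := Real.log_le_sub_one_of_pos hpos
  have h3 := Real.one_sub_inv_le_log_of_pos hpos
  have h4 : 1 - (1 + w)⁻¹ = w / (1 + w) := by field_simp; ring
  rw [h4] at h3
  have h5 : -(2 * |w|) ≤ w / (1 + w) := by
    rw [le_div_iff₀ hpos]
    have h6 : -|w| ≤ w := neg_abs_le w
    nlinarith [abs_nonneg w]
  rw [abs_le]
  constructor
  · linarith
  · linarith [le_abs_self w, abs_nonneg w]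

theorem near_log {π ρ τ : Option ℚ} (h12 : π ≠ ρ) (h23 : ρ ≠ τ) (h31 : τ ≠ π) (δ : ℝ)
    (hδ : 0 < δ) : ∃ (C : ℝ) (B0 : ℕ), 0 ≤ C ∧ ∀ x : ℚ, IsNear τ δ x → elp π x ≠ 0 → elp ρ x ≠ 0 →
      B0 ≤ ht x → |Real.log |(elp π x : ℝ)| - Real.log |(elp ρ x : ℝ)| -
        (Real.log (crs τ π).natAbs - Real.log (crs ρ τ).natAbs)| ≤ C * (ht x : ℝ) ^ (-δ) := by
  have k1 := crs_ne h23
  have k2 := crs_ne h31
  have k3 := crs_ne h12
  obtain ⟨c0, hc0⟩ : ∃ c0 : ℝ, c0 = (sz τ : ℝ) + sz ρ := ⟨_, rfl⟩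
  have hszτ : (1:ℝ) ≤ sz τ := by exact_mod_cast one_le_sz τ
  have hszρ : (1:ℝ) ≤ sz ρ := by exact_mod_cast one_le_sz ρ
  have hc0' : 2 ≤ c0 := by rw [hc0]; linarith
  obtain ⟨K, hK⟩ : ∃ K : ℝ, K = 2 * |(crs π ρ : ℝ)| * (sz τ : ℝ) * c0 := ⟨_, rfl⟩
  have hK0 : 0 ≤ K := by rw [hK]; positivity
  obtain ⟨ε, hε⟩ : ∃ ε : ℝ, ε = 1 / (2 * c0 * (sz τ : ℝ) + 2 * K + 1) := ⟨_, rfl⟩
  have hden : 0 < 2 * c0 * (sz τ : ℝ) + 2 * K + 1 := by positivity
  have hε0 : 0 < ε := by rw [hε]; positivity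
  obtain ⟨B0, hB0⟩ : ∃ B0 : ℕ, (1 / ε) ^ (1 / δ) ≤ B0 := exists_nat_ge _
  refine ⟨2 * K, B0, by positivity, fun x hnear hπ hρ hB => ?_⟩
  have hh1 : (1:ℝ) ≤ ht x := by exact_mod_cast one_le_ht x
  have hh0 : (0:ℝ) < ht x := by linarith
  have hη : (ht x : ℝ) ^ (-δ) ≤ ε := by
    have h1 : (1 / ε) ^ (1 / δ) ≤ ht x := hB0.trans (by exact_mod_cast hB)
    have h2 : 1 / ε ≤ (ht x : ℝ) ^ δ := by
      have h3 : 1 / ε = ((1 / ε) ^ (1 / δ)) ^ δ := by
        rw [← Real.rpow_mul (by positivity), one_div_mul_cancel hδ.ne', Real.rpow_one]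
      rw [h3]
      exact Real.rpow_le_rpow (by positivity) h1 hδ.le
    rw [Real.rpow_neg hh0.le, inv_le_comm₀ (Real.rpow_pos_of_pos hh0 _) hε0, ← one_div]
    exact h2
  have hη0 : 0 < (ht x : ℝ) ^ (-δ) := Real.rpow_pos_of_pos hh0 _
  have hεb : ε * (2 * c0 * (sz τ : ℝ) + 2 * K + 1) = 1 := by
    rw [hε]; field_simp
  have hτ := near_elp hnear
  have hpow : (ht x : ℝ) ^ (1 - δ) = ht x * (ht x : ℝ) ^ (-δ) := by
    rw [sub_eq_add_neg, Real.rpow_add hh0, Real.rpow_one]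
  rw [hpow] at hτ
  -- the lower bound for the form of `ρ`
  have hρlow : (ht x : ℝ) / (2 * c0) ≤ |(elp ρ x : ℝ)| := by
    have h1 := ht_le h23.symm x
    have h2 : (ht x : ℝ) ≤ c0 * (|(elp τ x : ℝ)| + |(elp ρ x : ℝ)|) := by
      have h3 : (ht x : ℝ) ≤ ((sz τ + sz ρ : ℕ) : ℝ) *
          ((((elp τ x).natAbs : ℕ) : ℝ) + (((elp ρ x).natAbs : ℕ) : ℝ)) := by exact_mod_cast h1
      rw [Nat.cast_natAbs, Nat.cast_natAbs, Int.cast_abs, Int.cast_abs] at h3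
      rw [hc0]
      push_cast at h3
      exact h3
    have h3 : c0 * |(elp τ x : ℝ)| ≤ ht x / 2 := by
      calc c0 * |(elp τ x : ℝ)| ≤ c0 * ((sz τ : ℝ) * (ht x * (ht x : ℝ) ^ (-δ))) := by gcongr
        _ ≤ c0 * ((sz τ : ℝ) * (ht x * ε)) := by gcongr
        _ = (c0 * (sz τ : ℝ) * ε) * ht x := by ring
        _ ≤ (1 / 2) * ht x := by
            gcongr
            nlinarith
        _ = ht x / 2 := by ring
    rw [div_le_iff₀ (by positivity)]
    nlinarith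
  have hρpos : 0 < |(elp ρ x : ℝ)| := lt_of_lt_of_le (by positivity) hρlow
  have hπpos : 0 < |(elp π x : ℝ)| := abs_pos.2 (by exact_mod_cast hπ)
  have k1r : (0:ℝ) < |(crs ρ τ : ℝ)| := abs_pos.2 (by exact_mod_cast k1)
  have k2r : (1:ℝ) ≤ |(crs τ π : ℝ)| := by
    have : (1:ℤ) ≤ |crs τ π| := Int.one_le_abs k2
    have h2 : ((1:ℤ) : ℝ) ≤ ((|crs τ π| : ℤ) : ℝ) := by exact_mod_cast this
    rwa [Int.cast_one, Int.cast_abs] at h2
  have k2r' : (crs τ π : ℝ) ≠ 0 := by exact_mod_cast k2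
  have hρne : (elp ρ x : ℝ) ≠ 0 := by exact_mod_cast hρ
  obtain ⟨w, hw⟩ : ∃ w : ℝ, w = (crs π ρ : ℝ) * elp τ x / (crs τ π * elp ρ x) := ⟨_, rfl⟩
  have hwabs : |w| ≤ K * (ht x : ℝ) ^ (-δ) := by
    rw [hw, abs_div, abs_mul, abs_mul, div_le_iff₀ (by positivity)]
    have h1 : K * (ht x : ℝ) ^ (-δ) * (1 * (ht x / (2 * c0))) ≤
        K * (ht x : ℝ) ^ (-δ) * (|(crs τ π : ℝ)| * |(elp ρ x : ℝ)|) := by gcongr
    refine le_trans ?_ h1
    calc |(crs π ρ : ℝ)| * |(elp τ x : ℝ)|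
        ≤ |(crs π ρ : ℝ)| * ((sz τ : ℝ) * (ht x * (ht x : ℝ) ^ (-δ))) := by gcongr
      _ = K * (ht x : ℝ) ^ (-δ) * (1 * (ht x / (2 * c0))) := by
          rw [hK]; field_simp
  have hwhalf : |w| ≤ 1 / 2 := by
    refine hwabs.trans ?_
    calc K * (ht x : ℝ) ^ (-δ) ≤ K * ε := by gcongr
      _ ≤ 1 / 2 := by nlinarith [mul_nonneg hε0.le (by positivity : 0 ≤ 2 * c0 * (sz τ : ℝ))]
  have hident : (crs ρ τ : ℝ) * elp π x = -((crs τ π : ℝ) * elp ρ x * (1 + w)) := by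
    have h1 : crs ρ τ * elp π x + crs τ π * elp ρ x + crs π ρ * elp τ x = 0 := by
      unfold crs elp; ring
    have h2 : (crs ρ τ : ℝ) * elp π x + crs τ π * elp ρ x + crs π ρ * elp τ x = 0 := by
      exact_mod_cast h1
    have h3 : (crs τ π : ℝ) * elp ρ x * w = (crs π ρ : ℝ) * elp τ x := by
      rw [hw]; field_simp
    linarith
  have hlog : Real.log |(elp π x : ℝ)| - Real.log |(elp ρ x : ℝ)| -
        (Real.log (crs τ π).natAbs - Real.log (crs ρ τ).natAbs) = Real.log (1 + w) := by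
    have h1w : 0 < 1 + w := by
      have := (abs_le.1 hwhalf).1
      linarith
    have h1 := congrArg (fun z : ℝ => Real.log |z|) hident
    simp only [abs_mul, abs_neg] at h1
    rw [Real.log_mul k1r.ne' hπpos.ne', Real.log_mul (by positivity) (by rw [abs_of_pos h1w]; exact h1w.ne'),
      Real.log_mul (by positivity) hρpos.ne', abs_of_pos h1w] at h1
    rw [Nat.cast_natAbs, Nat.cast_natAbs, Int.cast_abs, Int.cast_abs]
    linarith
  rw [hlog]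
  refine (log_one_add hwhalf).trans ?_
  rw [mul_assoc]
  gcongr

/-- **Main theorem of this part.** -/
theorem main (F G : ℚ[X]) (hcop : IsCoprime F G) (hG : G ≠ 0) (π ρ τ : Option ℚ) (h12 : π ≠ ρ)
    (h23 : ρ ≠ τ) (h31 : τ ≠ π) (hπ : IsPole F G π) (hρ : IsPole F G ρ) (δ : ℝ) (hδ : 0 < δ) :
    ∃ N : ℕ, ∀ x : ℚ, G.eval x ≠ 0 → IsNear τ δ x → ∀ n : ℕ, N ≤ n →
      Dv n (F.eval x / G.eval x) → (F.eval x / G.eval x).den = 1 := by
  obtain ⟨C, B0, hC, hnear⟩ := near_log h12 h23 h31 δ hδ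
  have k1 := crs_ne h23
  have k2 := crs_ne h31
  obtain ⟨N, hN⟩ := integral F G hcop hG π ρ h12 hπ hρ (crs τ π).natAbs (crs ρ τ).natAbs
    (Int.natAbs_pos.2 k2) (Int.natAbs_pos.2 k1) δ C hδ hC B0
  refine ⟨N, fun x hx hn n hNn hDv => ?_⟩
  have hxπ : π ≠ some x := by rintro rfl; exact hx hπ
  have hxρ : ρ ≠ some x := by rintro rfl; exact hx hρ
  have h1 := hN x hx (fun hB => hnear x hn (elp_ne hxπ) (elp_ne hxρ) hB) n hNn hDv
  by_contra hcon
  obtain ⟨q, hq, hqd⟩ := Nat.exists_prime_and_dvd hcon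
  have : Fact q.Prime := ⟨hq⟩
  have h2 := h1 q hq
  obtain ⟨r, hr⟩ : ∃ r : ℚ, r = F.eval x / G.eval x := ⟨_, rfl⟩
  rw [← hr] at h2 hqd
  have h3 : padicValRat q r = (padicValInt q r.num : ℤ) - padicValNat q r.den := rfl
  have h4 : 1 ≤ padicValNat q r.den := one_le_padicValNat_of_dvd r.den_nz hqd
  have h5 : padicValInt q r.num = 0 := by
    apply padicValInt.eq_zero_of_not_dvd
    intro h6
    have h7 : q ∣ r.num.natAbs := Int.natCast_dvd.1 h6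
    have h8 := Nat.dvd_gcd h7 hqd
    rw [r.reduced] at h8
    exact hq.one_lt.ne' (Nat.dvd_one.1 h8)
  rw [h3, h5] at h2
  have h6 : (1 : ℤ) ≤ (padicValNat q r.den : ℤ) := by exact_mod_cast h4
  rw [Nat.cast_zero] at h2
  linarith

end Pool.Agent.U964.LF
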